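import Pool.Agent.TH265.RB.Hat
import Pool.Agent.H820R3.DG.Quad

/-!
# Partial summation
-/

set_option autoImplicit false
set_option linter.unusedSectionVars false

open Finset

namespace Pool.Agent.TH265.RB

open Pool.Agent.H394R2.Ones

/-! ### the test function -/

section
variable (f : ℕ → ℤ) (hf0 : ∀ s, 0 ≤ f s) (hf1 : ∀ s, f s < 262144) (hf2 : ∀ s, 40 ≤ s → f s = 0)
  (hps : ∀ s < 40, 0 ≤ psi f s) (q : ℕ) (hq : 0 < q)

include hf0 hf2 in
lemma psi_far (s : ℕ) (hs : 40 ≤ s) : psi f s = 0 := by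
  obtain ⟨t, rfl⟩ : ∃ t, s = t + 1 := ⟨s - 1, by omega⟩
  rw [psi_succ, hf2 (t + 1) hs, hf2 (t + 2) (by omega)]
  have := hf0 t
  rw [max_eq_left (by linarith)]
  norm_num

include hf0 hf2 hps in
lemma psi_nonneg (s : ℕ) : 0 ≤ psi f s := by
  rcases lt_or_ge s 40 with h | h
  · exact hps s h
  · exact (psi_far f hf0 hf2 s h).ge

include hf1 in
lemma psi_bd (s : ℕ) : psi f s ≤ 4 * 262144 := by
  have h1 := psi_le f s
  have h2 := hf1 s
  linarith

include hf0 hf2 hps hq in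
lemma tg_nonneg (m : ℕ) : 0 ≤ tg f q m := by
  unfold tg
  have h1 := fr_nonneg q m
  have h2 := fr_lt q m hq
  have h3 : (0 : ℝ) ≤ (psi f (m / q) : ℤ) := by exact_mod_cast psi_nonneg f hf0 hf2 hps _
  have h4 : (0 : ℝ) ≤ (psi f (m / q + 1) : ℤ) := by exact_mod_cast psi_nonneg f hf0 hf2 hps _
  have h5 : (0 : ℝ) ≤ 1 - fr q m := by linarith
  positivity

include hf1 hq in
lemma tg_le (m : ℕ) : tg f q m ≤ 262144 := by
  unfold tg
  have h1 := fr_nonneg q m
  have h2 := fr_lt q m hq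
  have h3 : ((psi f (m / q) : ℤ) : ℝ) ≤ 4 * 262144 := by exact_mod_cast psi_bd f hf1 _
  have h4 : ((psi f (m / q + 1) : ℤ) : ℝ) ≤ 4 * 262144 := by exact_mod_cast psi_bd f hf1 _
  nlinarith

include hq in
lemma tg_step (m : ℕ) :
    tg f q (m + 1) - tg f q m = ((psi f (m / q + 1) : ℤ) - (psi f (m / q) : ℤ) : ℝ) / (4 * q) := by
  have hqR : (0 : ℝ) < q := by exact_mod_cast hq
  have hm := Nat.div_add_mod m q
  have hlt := Nat.mod_lt m hq
  set s := m / q with hs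
  set t := m % q with ht
  have hfm : fr q m = (t : ℝ) / q := rfl
  rcases Nat.lt_or_ge (t + 1) q with h | h
  · have h1 : (m + 1) / q = s := by
      apply Nat.div_eq_of_lt_le
      · rw [mul_comm]; omega
      · rw [add_mul, one_mul, mul_comm s q]; omega
    have h2 : fr q (m + 1) = ((t : ℝ) + 1) / q := by
      unfold fr
      rw [Nat.add_mod, ← ht, Nat.mod_eq_of_lt (a := 1) (by omega), Nat.mod_eq_of_lt h]
      push_cast; rfl
    unfold tg
    rw [h1, h2, ← hs, hfm]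
    field_simp
    ring
  · have h1 : t + 1 = q := by omega
    have h2 : m + 1 = q * (s + 1) := by rw [mul_add, mul_one]; omega
    have h3 : (m + 1) / q = s + 1 := by rw [h2]; exact Nat.mul_div_cancel_left _ hq
    have h4 : fr q (m + 1) = 0 := by
      unfold fr; rw [h2, Nat.mul_mod_right]; simp
    have h5 : (t : ℝ) = q - 1 := by
      rw [← h1]; push_cast; ring
    unfold tg
    rw [h3, h4, ← hs, hfm, h5]
    field_simp
    ring

include hf0 hf1 hf2 hps hq in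
lemma tg_step_ge (m : ℕ) : -(262144 / q) ≤ tg f q (m + 1) - tg f q m := by
  rw [tg_step f q hq]
  have hqR : (0 : ℝ) < q := by exact_mod_cast hq
  have h3 : ((psi f (m / q) : ℤ) : ℝ) ≤ 4 * 262144 := by exact_mod_cast psi_bd f hf1 _
  have h4 : (0 : ℝ) ≤ (psi f (m / q + 1) : ℤ) := by exact_mod_cast psi_nonneg f hf0 hf2 hps _
  rw [← neg_div, div_le_div_iff₀ hqR (by positivity)]
  nlinarith

lemma gauss (k : ℕ) : ∑ t ∈ range k, (t : ℝ) = k * (k - 1) / 2 := by
  induction k with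
  | zero => simp
  | succ k ih => rw [sum_range_succ, ih]; push_cast; ring

include hq in
lemma tg_sum (N : ℕ) : ∑ m ∈ range (N * q), tg f q m =
    ((q + 1) * ∑ s ∈ range N, ((psi f s : ℤ) : ℝ) +
      (q - 1) * ∑ s ∈ range N, ((psi f (s + 1) : ℤ) : ℝ)) / 8 := by
  have hqR : (0 : ℝ) < q := by exact_mod_cast hq
  induction N with
  | zero => simp
  | succ N ih =>
    rw [add_mul, one_mul, sum_range_add, ih, sum_range_succ _ N, sum_range_succ _ N]
    have h1 : ∀ t ∈ range q, tg f q (N * q + t) =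
        ((psi f N : ℤ) : ℝ) / 4 + (t : ℝ) * ((((psi f (N + 1) : ℤ) : ℝ) - (psi f N : ℤ)) / (4 * q)) := by
      intro t ht
      have ht' := mem_range.1 ht
      have e1 : (N * q + t) / q = N := by
        rw [mul_comm, Nat.mul_add_div hq, Nat.div_eq_of_lt ht', add_zero]
      have e2 : fr q (N * q + t) = (t : ℝ) / q := by
        unfold fr
        rw [mul_comm, Nat.mul_add_mod, Nat.mod_eq_of_lt ht']
      unfold tg
      rw [e1, e2]
      field_simp
      ring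
    rw [sum_congr rfl h1, sum_add_distrib, sum_const, card_range, ← sum_mul, gauss, nsmul_eq_mul]
    field_simp
    ring

include hf0 hf2 hps hq in
lemma tg_sum_ge : (q : ℝ) * ((psi f 0 + 2 * ∑ s ∈ range 39, psi f (s + 1) : ℤ) : ℝ) / 8 ≤
    ∑ m ∈ range (40 * q), tg f q m := by
  have hqR : (1 : ℝ) ≤ q := by exact_mod_cast hq
  rw [tg_sum f q hq, sum_range_succ' _ 39, sum_range_succ _ 39]
  push_cast
  set P := ∑ s ∈ range 39, ((psi f (s + 1) : ℤ) : ℝ) with hP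
  have h4 : (0 : ℝ) ≤ (psi f 0 : ℤ) := by exact_mod_cast psi_nonneg f hf0 hf2 hps _
  have h5 : (0 : ℝ) ≤ (psi f (39 + 1) : ℤ) := by exact_mod_cast psi_nonneg f hf0 hf2 hps _
  have h6 : (0 : ℝ) ≤ ((q : ℝ) - 1) * (psi f (39 + 1) : ℤ) := mul_nonneg (by linarith) h5
  nlinarith

end

/-! ### partial summation -/

section
variable {b : ℕ} {y : ℝ} (hb : 2 ≤ b) (hy0 : 0 < y) (hy1 : y < 1) (hirr : Irrational y)
  {τ D : ℝ} {q : ℕ} (hq : 0 < q) {d : ℕ → ℝ} (hd0 : ∀ m, 0 ≤ d m) (hd : ∀ m, τ - d m ≤ T b y m)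
  (hD : ∑ m ∈ range (40 * q), d m ≤ D)

include hb hy0 hy1 in
lemma r_abel (g : ℕ → ℝ) (n : ℕ) : ∑ m ∈ range (n + 1), (r b y m : ℝ) * g m =
    ∑ m ∈ range n, T b y m * (b * g (m + 1) - g m) + T b y 0 * g 0 - T b y n * g n := by
  induction n with
  | zero => simp [r_zero hy0 hy1]
  | succ n ih =>
    rw [sum_range_succ, ih, sum_range_succ _ n]
    have h1 := T_succ hb hy0 hy1 (b := b) n
    have h2 : (r b y (n + 1) : ℝ) = b * T b y n - T b y (n + 1) := by linarith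
    rw [h2]
    ring

include hb hy0 hy1 hirr hq hd0 hd hD in
lemma abel_ge (g : ℕ → ℝ) {G : ℝ} (h0 : ∀ m, 0 ≤ g m) (h1 : ∀ m, g m ≤ G)
    (h2 : ∀ m, -(G / q) ≤ g (m + 1) - g m) (h3 : g (40 * q) = 0) :
    ((b : ℝ) - 1) * (τ * ∑ m ∈ range (40 * q), g m - G * D) -
      40 * b * G * (K b y (40 * q) + 1) ≤ ∑ m ∈ range (40 * q + 1), (r b y m : ℝ) * g m := by
  have hbR : (2 : ℝ) ≤ b := by exact_mod_cast hb
  have hqR : (0 : ℝ) < q := by exact_mod_cast hq
  have hG : 0 ≤ G := (h0 0).trans (h1 0)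
  rw [r_abel hb hy0 hy1, h3, mul_zero, sub_zero]
  have hT0 := T_pos hb hy0 hy1 hirr 0
  have h4 : ∑ m ∈ range (40 * q), (((b : ℝ) - 1) * ((τ - d m) * g m) - b * (G / q) * T b y m) ≤
      ∑ m ∈ range (40 * q), T b y m * (b * g (m + 1) - g m) := by
    refine sum_le_sum fun m _ => ?_
    have hT := T_pos hb hy0 hy1 hirr m
    have a1 : (τ - d m) * g m ≤ T b y m * g m := mul_le_mul_of_nonneg_right (hd m) (h0 m)
    have a2 : ((b : ℝ) - 1) * ((τ - d m) * g m) ≤ (b - 1) * (T b y m * g m) :=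
      mul_le_mul_of_nonneg_left a1 (by linarith)
    have a3 : (b * T b y m) * -(G / q) ≤ (b * T b y m) * (g (m + 1) - g m) :=
      mul_le_mul_of_nonneg_left (h2 m) (by positivity)
    linarith
  have h5 : ∑ m ∈ range (40 * q), (((b : ℝ) - 1) * ((τ - d m) * g m) - b * (G / q) * T b y m) =
      ((b : ℝ) - 1) * (τ * ∑ m ∈ range (40 * q), g m - ∑ m ∈ range (40 * q), d m * g m) -
        b * (G / q) * ∑ m ∈ range (40 * q), T b y m := by
    rw [sum_sub_distrib, ← mul_sum, ← mul_sum]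
    congr 2
    rw [mul_sum, ← sum_sub_distrib]
    exact sum_congr rfl fun m _ => by ring
  have h6 : ∑ m ∈ range (40 * q), d m * g m ≤ G * D := by
    calc ∑ m ∈ range (40 * q), d m * g m ≤ ∑ m ∈ range (40 * q), d m * G :=
          sum_le_sum fun m _ => mul_le_mul_of_nonneg_left (h1 m) (hd0 m)
      _ = G * ∑ m ∈ range (40 * q), d m := by rw [← sum_mul, mul_comm]
      _ ≤ G * D := mul_le_mul_of_nonneg_left hD hG
  have h7 := T_sum_le hb hy0 hy1 hirr (40 * q)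
  have h8 : b * (G / q) * ∑ m ∈ range (40 * q), T b y m ≤
      40 * b * G * (K b y (40 * q) + 1) := by
    calc b * (G / q) * ∑ m ∈ range (40 * q), T b y m ≤
          b * (G / q) * (((40 * q : ℕ) : ℝ) * (K b y (40 * q) + 1)) :=
          mul_le_mul_of_nonneg_left h7 (by positivity)
      _ = _ := by push_cast; field_simp
  have h9 : 0 ≤ T b y 0 * g 0 := mul_nonneg hT0.le (h0 0)
  have h10 : ((b : ℝ) - 1) * (∑ m ∈ range (40 * q), d m * g m) ≤ (b - 1) * (G * D) :=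
    mul_le_mul_of_nonneg_left h6 (by linarith)
  linarith

include hb hy0 hy1 hirr hq hd0 hd hD in
/-- the covering inequality -/
theorem cover_ge (hτ : 0 ≤ τ) (f : ℕ → ℤ) (hf0 : ∀ s, 0 ≤ f s) (hf1 : ∀ s, f s < 262144)
    (hf2 : ∀ s, 40 ≤ s → f s = 0) (hps : ∀ s < 40, 0 ≤ psi f s) :
    ((b : ℝ) - 1) * (τ * (q * ((psi f 0 + 2 * ∑ s ∈ range 39, psi f (s + 1) : ℤ) : ℝ) / 8) -
      262144 * D) - 40 * b * 262144 * (K b y (40 * q) + 1) ≤
      ∑ c ∈ range 41, ∑ d ∈ range 41, pw (fun i => (x b y i : ℝ)) q c *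
        pw (fun i => (x b y i : ℝ)) q d * ((f (c + d) : ℤ) : ℝ) := by
  have hbR : (2 : ℝ) ≤ b := by exact_mod_cast hb
  have h1 := pairs_ge f (fun i => (x b y i : ℝ)) (fun i => Nat.cast_nonneg _) q hq
  refine le_trans ?_ h1
  have h2 := pair_sum (40 * q) (fun i j => (x b y i : ℝ) * x b y j * tg f q (i + j))
  rw [sum_product] at h2
  have h3 : ∑ i ∈ range (40 * q + 1), ∑ j ∈ range (40 * q + 1),
      (x b y i : ℝ) * x b y j * tg f q (i + j) =
      ∑ m ∈ range (40 * q + 1), (r b y m : ℝ) * tg f q m +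
        ∑ p ∈ (range (40 * q + 1) ×ˢ range (40 * q + 1)).filter (fun p => ¬ p.1 + p.2 ≤ 40 * q),
          (x b y p.1 : ℝ) * x b y p.2 * tg f q (p.1 + p.2) := by
    rw [h2]
    congr 1
    refine sum_congr rfl fun m _ => ?_
    unfold r
    push_cast
    rw [sum_mul]
    refine sum_congr rfl fun p hp => ?_
    rw [HasAntidiagonal.mem_antidiagonal] at hp
    rw [hp]
  rw [h3]
  have h4 : 0 ≤ ∑ p ∈ (range (40 * q + 1) ×ˢ range (40 * q + 1)).filter
      (fun p => ¬ p.1 + p.2 ≤ 40 * q), (x b y p.1 : ℝ) * x b y p.2 * tg f q (p.1 + p.2) :=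
    sum_nonneg fun p _ => mul_nonneg (by positivity) (tg_nonneg f hf0 hf2 hps q hq _)
  have h5 := abel_ge hb hy0 hy1 hirr hq hd0 hd hD (tg f q) (tg_nonneg f hf0 hf2 hps q hq)
    (tg_le f hf1 q hq) (tg_step_ge f hf0 hf1 hf2 hps q hq) (by
      unfold tg
      have e1 : 40 * q / q = 40 := Nat.mul_div_cancel _ hq
      rw [e1, psi_far f hf0 hf2 40 le_rfl, psi_far f hf0 hf2 (40 + 1) (by norm_num)]
      simp)
  have h6 := tg_sum_ge f hf0 hf2 hps q hq
  have h7 : ((b : ℝ) - 1) * (τ * (q * ((psi f 0 + 2 * ∑ s ∈ range 39, psi f (s + 1) : ℤ) : ℝ) / 8)) ≤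
      ((b : ℝ) - 1) * (τ * ∑ m ∈ range (40 * q), tg f q m) :=
    mul_le_mul_of_nonneg_left (mul_le_mul_of_nonneg_left h6 hτ) (by linarith)
  linarith

end

end Pool.Agent.TH265.RB
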