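import Mathlib

/-!
# Scalar products of lists by one multiplication of large numbers
-/

set_option autoImplicit false

namespace Pool.Agent.TH265.RB

/-- scalar product -/
def dot : List ℤ → List ℤ → ℤ
  | a :: as, b :: bs => a * b + dot as bs
  | [], _ => 0
  | _ :: _, [] => 0

lemma dot_cons (a b : ℤ) (as bs : List ℤ) : dot (a :: as) (b :: bs) = a * b + dot as bs := rfl

lemma dot_nil_left (b : List ℤ) : dot [] b = 0 := rfl

/-- scalar product of natural numbers -/
def dotN : List ℕ → List ℕ → ℕ
  | a :: as, b :: bs => a * b + dotN as bs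
  | [], _ => 0
  | _ :: _, [] => 0

/-- the base -/
def XX : ℕ := 340282366920938463463374607431768211456

/-- value, first entry lowest -/
def ev : List ℕ → ℕ
  | [] => 0
  | a :: as => a + XX * ev as

/-- value, first entry highest -/
def evr : ℕ → List ℕ → ℕ
  | s, [] => s
  | s, b :: bs => evr (s * XX + b) bs

lemma evr_eq : ∀ (b : List ℕ) (s : ℕ), evr s b = s * XX ^ b.length + evr 0 b := by
  intro b
  induction b with
  | nil => intro s; simp [evr]
  | cons x b ih =>
    intro s
    rw [evr, evr, ih (s * XX + x), ih (0 * XX + x), List.length_cons, pow_succ]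
    ring

lemma evr_cons (x : ℕ) (b : List ℕ) : evr 0 (x :: b) = x * XX ^ b.length + evr 0 b := by
  rw [evr, zero_mul, zero_add, evr_eq]

lemma XX_eq : XX = (XX - 1) + 1 := by decide

lemma evr_le (β : ℕ) : ∀ b : List ℕ, (∀ y ∈ b, y ≤ β) →
    (XX - 1) * evr 0 b + β ≤ β * XX ^ b.length := by
  intro b
  induction b with
  | nil => intro _; simp [evr]
  | cons x b ih =>
    intro h
    have h1 := ih (fun y hy => h y (List.mem_cons_of_mem _ hy))
    have h2 : x ≤ β := h x List.mem_cons_self
    rw [evr_cons, List.length_cons, pow_succ]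
    have h3 : (XX - 1) * (x * XX ^ b.length) ≤ (XX - 1) * (β * XX ^ b.length) := by gcongr
    have h4 : β * (XX ^ b.length * XX) = (XX - 1) * (β * XX ^ b.length) + β * XX ^ b.length := by
      conv_lhs => rw [XX_eq]
      have : (XX - 1 + 1) ^ b.length = XX ^ b.length := by rw [← XX_eq]
      rw [this]
      ring
    rw [h4, mul_add]
    omega

lemma kron (α β : ℕ) : ∀ (a b : List ℕ) (m : ℕ), a.length = m + 1 → b.length = m + 1 →
    (∀ x ∈ a, x ≤ α) → (∀ y ∈ b, y ≤ β) →
    ∃ H Lo, ev a * evr 0 b = XX ^ m * dotN a b + XX ^ (m + 1) * H + Lo ∧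
      (XX - 1) * Lo + α * β * m ≤ α * β * m * XX ^ m := by
  intro a
  induction a with
  | nil => intro b m h; simp at h
  | cons x a ih =>
    intro b m ha hb hα hβ
    cases b with
    | nil => simp at hb
    | cons y b =>
      simp only [List.length_cons, Nat.add_right_cancel_iff] at ha hb
      cases m with
      | zero =>
        rw [List.length_eq_zero_iff] at ha hb
        subst ha; subst hb
        refine ⟨0, 0, ?_, by simp⟩
        simp [ev, evr, dotN]
      | succ m =>
        obtain ⟨H, Lo, h1, h2⟩ := ih b m ha hb (fun z hz => hα z (List.mem_cons_of_mem _ hz))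
          (fun z hz => hβ z (List.mem_cons_of_mem _ hz))
        refine ⟨H + y * ev a, x * evr 0 b + XX * Lo, ?_, ?_⟩
        · have e1 : ev (x :: a) = x + XX * ev a := rfl
          have e2 : dotN (x :: a) (y :: b) = x * y + dotN a b := rfl
          rw [e1, e2, evr_cons, hb]
          have e3 : (x + XX * ev a) * (y * XX ^ (m + 1) + evr 0 b) =
              x * y * XX ^ (m + 1) + x * evr 0 b + XX ^ (m + 1) * XX * (y * ev a) +
                XX * (ev a * evr 0 b) := by ring
          rw [e3, h1]
          ring
        · have h3 := evr_le β b (fun z hz => hβ z (List.mem_cons_of_mem _ hz))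
          rw [hb] at h3
          have h4 : x ≤ α := hα x List.mem_cons_self
          have h5 : (XX - 1) * (x * evr 0 b) + α * β ≤ α * β * XX ^ (m + 1) := by
            calc (XX - 1) * (x * evr 0 b) + α * β ≤ (XX - 1) * (α * evr 0 b) + α * β := by gcongr
              _ = α * ((XX - 1) * evr 0 b + β) := by ring
              _ ≤ α * (β * XX ^ (m + 1)) := by gcongr
              _ = _ := by ring
          have h6 : (XX - 1) * (XX * Lo) + α * β * m ≤ α * β * m * XX ^ (m + 1) := by
            have h7 : XX * ((XX - 1) * Lo + α * β * m) ≤ XX * (α * β * m * XX ^ m) := by gcongr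
            have h8 : α * β * m ≤ XX * (α * β * m) := Nat.le_mul_of_pos_left _ (by decide)
            rw [pow_succ]
            nlinarith
          nlinarith

lemma dotN_le (α β : ℕ) : ∀ a b : List ℕ, (∀ x ∈ a, x ≤ α) → (∀ y ∈ b, y ≤ β) →
    dotN a b ≤ α * β * a.length := by
  intro a
  induction a with
  | nil => intro b _ _; simp [dotN]
  | cons x a ih =>
    intro b ha hb
    cases b with
    | nil => simp [dotN]
    | cons y b =>
      have h1 := ih b (fun z hz => ha z (List.mem_cons_of_mem _ hz))
        (fun z hz => hb z (List.mem_cons_of_mem _ hz))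
      have h2 : x * y ≤ α * β := Nat.mul_le_mul (ha x List.mem_cons_self) (hb y List.mem_cons_self)
      rw [dotN, List.length_cons]
      nlinarith

/-- the scalar product is a digit of the product -/
lemma kron_digit (α β : ℕ) (a b : List ℕ) (m : ℕ) (ha : a.length = m + 1) (hb : b.length = m + 1)
    (hα : ∀ x ∈ a, x ≤ α) (hβ : ∀ y ∈ b, y ≤ β) (hX : α * β * (m + 1) < XX) :
    (ev a * evr 0 b / XX ^ m) % XX = dotN a b := by
  obtain ⟨H, Lo, h1, h2⟩ := kron α β a b m ha hb hα hβ
  have hXp : 0 < XX ^ m := pow_pos (by decide) m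
  have hlo : Lo < XX ^ m := by
    by_contra hcon
    push Not at hcon
    have h3 : (XX - 1) * XX ^ m ≤ (XX - 1) * Lo := by gcongr
    have h4 : α * β * m ≤ XX - 1 := by
      have : α * β * m ≤ α * β * (m + 1) := by gcongr; omega
      omega
    have h5 : α * β * m * XX ^ m ≤ (XX - 1) * XX ^ m := by gcongr
    have h6 : α * β * m = 0 := by omega
    rw [h6, zero_mul, add_zero] at h2
    have h7 : (XX - 1) * Lo = 0 := Nat.le_zero.1 h2
    have h8 : 0 < (XX - 1) * Lo := Nat.mul_pos (by decide) (by omega)
    omega
  have hd : dotN a b < XX := by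
    have := dotN_le α β a b hα hβ
    rw [ha] at this
    omega
  have e : ev a * evr 0 b = XX ^ m * (dotN a b + XX * H) + Lo := by rw [h1]; ring
  rw [e, Nat.mul_add_div hXp, Nat.div_eq_of_lt hlo, add_zero, Nat.add_mul_mod_self_left,
    Nat.mod_eq_of_lt hd]

/-- shifting to natural numbers -/
def sh (α : ℕ) (a : List ℤ) : List ℕ := a.map fun z : ℤ => (z + (α : ℤ)).toNat

lemma sh_length (α : ℕ) (a : List ℤ) : (sh α a).length = a.length := by
  unfold sh; rw [List.length_map]

/-- all entries of absolute value at most `α` -/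
def bdd (α : ℕ) (a : List ℤ) : Bool := a.all fun z => decide (z.natAbs ≤ α)

lemma sh_le (α : ℕ) (a : List ℤ) (h : bdd α a = true) : ∀ x ∈ sh α a, x ≤ 2 * α := by
  intro x hx
  unfold sh at hx
  rw [List.mem_map] at hx
  obtain ⟨z, hz, rfl⟩ := hx
  unfold bdd at h
  rw [List.all_eq_true] at h
  have := h z hz
  rw [decide_eq_true_eq] at this
  omega

/-- sums -/
def sumN : List ℕ → ℕ
  | [] => 0
  | a :: as => a + sumN as

lemma dot_shift (α β : ℕ) : ∀ a b : List ℤ, a.length = b.length → bdd α a = true →
    bdd β b = true → ((dotN (sh α a) (sh β b) : ℕ) : ℤ) + α * β * a.length =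
      dot a b + α * sumN (sh β b) + β * sumN (sh α a) := by
  intro a
  induction a with
  | nil =>
    intro b h _ _
    have : b = [] := List.length_eq_zero_iff.1 h.symm
    subst this
    simp [dotN, sh, sumN, dot]
  | cons x a ih =>
    intro b h ha hb
    cases b with
    | nil => simp at h
    | cons y b =>
      simp only [List.length_cons, Nat.add_right_cancel_iff] at h
      unfold bdd at ha hb
      rw [List.all_cons, Bool.and_eq_true, decide_eq_true_eq] at ha hb
      have h1 := ih b h ha.2 hb.2
      have e1 : sh α (x :: a) = (x + α).toNat :: sh α a := rfl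
      have e2 : sh β (y :: b) = (y + β).toNat :: sh β b := rfl
      have e3 : (((x + α).toNat : ℕ) : ℤ) = x + α := Int.toNat_of_nonneg (by omega)
      have e4 : (((y + β).toNat : ℕ) : ℤ) = y + β := Int.toNat_of_nonneg (by omega)
      rw [e1, e2, dotN, sumN, sumN, dot_cons, List.length_cons]
      push_cast
      rw [e3, e4]
      linear_combination h1

/-- one row of the inequality -/
def rowK (m cst : ℕ) (A : ℕ × ℕ) : List (ℕ × ℕ) → List ℕ → Bool
  | [], _ => true
  | b :: bs, [] => Nat.ble (b.2 + A.2) (A.1 * b.1 / XX ^ m % XX + cst) && rowK m cst A bs []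
  | b :: bs, f :: fs =>
    Nat.ble (f + b.2 + A.2) (A.1 * b.1 / XX ^ m % XX + cst) && rowK m cst A bs fs

/-- all rows of the inequality -/
def allK (m cst : ℕ) : List (ℕ × ℕ) → List (ℕ × ℕ) → List ℕ → Bool
  | [], _, _ => true
  | a :: as, bs, ph => rowK m cst a bs ph && allK m cst as bs ph.tail

lemma rowK_sound (m cst : ℕ) (A : ℕ × ℕ) : ∀ (bs : List (ℕ × ℕ)) (ph : List ℕ),
    rowK m cst A bs ph = true → ∀ d < bs.length,
      ph.getD d 0 + (bs.getD d (0, 0)).2 + A.2 ≤
        A.1 * (bs.getD d (0, 0)).1 / XX ^ m % XX + cst := by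
  intro bs
  induction bs with
  | nil => intro ph _ d hd; simp at hd
  | cons b bs ih =>
    intro ph h d hd
    cases ph with
    | nil =>
      rw [rowK, Bool.and_eq_true, Nat.ble_eq] at h
      cases d with
      | zero => simpa using h.1
      | succ d =>
        have := ih [] h.2 d (by simpa using hd)
        simpa using this
    | cons f fs =>
      rw [rowK, Bool.and_eq_true, Nat.ble_eq] at h
      cases d with
      | zero => simpa using h.1
      | succ d =>
        have := ih fs h.2 d (by simpa using hd)
        simpa using this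

lemma allK_sound (m cst : ℕ) : ∀ (as bs : List (ℕ × ℕ)) (ph : List ℕ),
    allK m cst as bs ph = true → ∀ c < as.length, ∀ d < bs.length,
      ph.getD (c + d) 0 + (bs.getD d (0, 0)).2 + (as.getD c (0, 0)).2 ≤
        (as.getD c (0, 0)).1 * (bs.getD d (0, 0)).1 / XX ^ m % XX + cst := by
  intro as
  induction as with
  | nil => intro bs ph _ c hc; simp at hc
  | cons a as ih =>
    intro bs ph h c hc d hd
    rw [allK, Bool.and_eq_true] at h
    cases c with
    | zero =>
      have := rowK_sound m cst a bs ph h.1 d hd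
      simpa using this
    | succ c =>
      have h1 := ih bs ph.tail h.2 c (by simpa using hc) d hd
      have h2 : ph.getD (c + 1 + d) 0 = ph.tail.getD (c + d) 0 := by
        cases ph with
        | nil => simp
        | cons f fs =>
          rw [show c + 1 + d = (c + d) + 1 by ring]
          simp
      rw [h2]
      simpa using h1

/-- encoding of a left row -/
def encA (α β : ℕ) (a : List ℤ) : ℕ × ℕ := (ev (sh α a), β * sumN (sh α a))

/-- encoding of a right row -/
def encB (α β : ℕ) (b : List ℤ) : ℕ × ℕ := (evr 0 (sh β b), α * sumN (sh β b))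

/-- the checker -/
def checkMat (α β m : ℕ) (As Bs : List (List ℤ)) (ph : List ℕ) : Bool :=
  (As.all fun a => Nat.beq a.length (m + 1) && bdd α a) &&
    (Bs.all fun b => Nat.beq b.length (m + 1) && bdd β b) &&
    Nat.blt (2 * α * (2 * β) * (m + 1)) XX &&
    allK m (α * β * (m + 1)) (As.map (encA α β)) (Bs.map (encB α β)) ph

theorem checkMat_sound (α β m : ℕ) (As Bs : List (List ℤ)) (ph : List ℕ)
    (h : checkMat α β m As Bs ph = true) :
    ∀ c < As.length, ∀ d < Bs.length,
      ((ph.getD (c + d) 0 : ℕ) : ℤ) ≤ dot (As.getD c []) (Bs.getD d []) := by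
  unfold checkMat at h
  rw [Bool.and_eq_true, Bool.and_eq_true, Bool.and_eq_true, List.all_eq_true,
    List.all_eq_true] at h
  obtain ⟨⟨⟨hA, hB⟩, hX⟩, hK⟩ := h
  have hX' : 2 * α * (2 * β) * (m + 1) < XX := by
    have := hX
    unfold Nat.blt at this
    rw [Nat.ble_eq] at this
    exact this
  intro c hc d hd
  have h1 := allK_sound m _ _ _ ph hK c (by rwa [List.length_map]) d (by rwa [List.length_map])
  have e1 : (As.map (encA α β)).getD c (0, 0) = encA α β (As.getD c []) := by
    rw [List.getD_eq_getElem _ _ (by rwa [List.length_map]), List.getElem_map,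
      List.getD_eq_getElem _ _ hc]
  have e2 : (Bs.map (encB α β)).getD d (0, 0) = encB α β (Bs.getD d []) := by
    rw [List.getD_eq_getElem _ _ (by rwa [List.length_map]), List.getElem_map,
      List.getD_eq_getElem _ _ hd]
  rw [e1, e2] at h1
  have hAm : As.getD c [] ∈ As := by
    rw [List.getD_eq_getElem _ _ hc]; exact List.getElem_mem hc
  have hBm : Bs.getD d [] ∈ Bs := by
    rw [List.getD_eq_getElem _ _ hd]; exact List.getElem_mem hd
  have a1 := hA _ hAm
  have b1 := hB _ hBm
  rw [Bool.and_eq_true, Nat.beq_eq] at a1 b1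
  set a := As.getD c []
  set b := Bs.getD d []
  have hk := kron_digit (2 * α) (2 * β) (sh α a) (sh β b) m (by rw [sh_length]; exact a1.1)
    (by rw [sh_length]; exact b1.1) (sh_le α a a1.2) (sh_le β b b1.2) hX'
  have hs := dot_shift α β a b (by rw [a1.1, b1.1]) a1.2 b1.2
  unfold encA encB at h1
  simp only at h1
  rw [hk] at h1
  rw [a1.1] at hs
  have h2 : ((ph.getD (c + d) 0 : ℕ) : ℤ) + α * sumN (sh β b) + β * sumN (sh α a) ≤
      dotN (sh α a) (sh β b) + α * β * ((m + 1 : ℕ) : ℤ) := by exact_mod_cast h1
  linarith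

end Pool.Agent.TH265.RB
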