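import Pool.Agent.TH265.RB.Table
import Pool.Agent.TH265.RB.Kron

/-!
# Certificates: the checker and its soundness
-/

set_option autoImplicit false

open Finset

namespace Pool.Agent.TH265.RB

/-! ### lists -/

lemma dot_eq_sum : ∀ (a b : List ℤ) (m : ℕ), a.length ≤ m →
    dot a b = ∑ j ∈ range m, a.getD j 0 * b.getD j 0 := by
  intro a
  induction a with
  | nil => intro b m _; simp [dot_nil_left]
  | cons x a ih =>
    intro b m hm
    obtain ⟨m', rfl⟩ : ∃ m', m = m' + 1 := ⟨m - 1, by simp at hm; omega⟩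
    rw [sum_range_succ']
    cases b with
    | nil => simp [dot]
    | cons y b =>
      rw [dot_cons, ih b m' (by simpa using hm)]
      simp only [List.getD_cons_succ, List.getD_cons_zero]
      ring

/-- positivity -/
lemma dot_psd (n : ℕ) (p : ℕ → ℝ) (l : ℕ → List ℤ) :
    0 ≤ ∑ c ∈ range n, ∑ d ∈ range n, p c * p d * ((dot (l c) (l d) : ℤ) : ℝ) := by
  set m := ∑ c ∈ range n, (l c).length with hm
  have h1 : ∀ c ∈ range n, ∀ d, ((dot (l c) (l d) : ℤ) : ℝ) =
      ∑ j ∈ range m, ((l c).getD j 0 : ℝ) * ((l d).getD j 0 : ℝ) := by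
    intro c hc d
    rw [dot_eq_sum _ _ m (single_le_sum (f := fun c => (l c).length) (fun _ _ => Nat.zero_le _) hc)]
    push_cast
    rfl
  have h2 : ∑ c ∈ range n, ∑ d ∈ range n, p c * p d * ((dot (l c) (l d) : ℤ) : ℝ) =
      ∑ j ∈ range m, (∑ c ∈ range n, p c * ((l c).getD j 0 : ℝ)) ^ 2 := by
    calc _ = ∑ c ∈ range n, ∑ d ∈ range n, ∑ j ∈ range m,
          (p c * ((l c).getD j 0 : ℝ)) * (p d * ((l d).getD j 0 : ℝ)) := by
          refine sum_congr rfl fun c hc => sum_congr rfl fun d _ => ?_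
          rw [h1 c hc d, mul_sum]
          exact sum_congr rfl fun j _ => by ring
      _ = ∑ c ∈ range n, ∑ j ∈ range m, ∑ d ∈ range n,
          (p c * ((l c).getD j 0 : ℝ)) * (p d * ((l d).getD j 0 : ℝ)) :=
          sum_congr rfl fun c _ => sum_comm
      _ = ∑ j ∈ range m, ∑ c ∈ range n, ∑ d ∈ range n,
          (p c * ((l c).getD j 0 : ℝ)) * (p d * ((l d).getD j 0 : ℝ)) := sum_comm
      _ = _ := by
          refine sum_congr rfl fun j _ => ?_
          rw [sq, sum_mul_sum]
  rw [h2]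
  exact sum_nonneg fun j _ => sq_nonneg _

/-- a list of pairs -/
def pairs (f : ℕ → ℤ × ℤ) : ℕ → List ℤ
  | 0 => []
  | n + 1 => (f n).1 :: (f n).2 :: pairs f n

lemma dot_pairs (f g : ℕ → ℤ × ℤ) (a b : List ℤ) : ∀ n : ℕ,
    dot (pairs f n ++ a) (pairs g n ++ b) =
      ∑ k ∈ range n, ((f k).1 * (g k).1 + (f k).2 * (g k).2) + dot a b := by
  intro n
  induction n with
  | zero => simp [pairs]
  | succ n ih =>
    rw [pairs, pairs, List.cons_append, List.cons_append, List.cons_append, List.cons_append,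
      dot_cons, dot_cons, ih, sum_range_succ]
    ring

lemma dot_map (t : ℤ) : ∀ a b : List ℤ, dot (a.map (fun z => t * z)) b = t * dot a b := by
  intro a
  induction a with
  | nil => intro b; simp [dot]
  | cons x a ih =>
    intro b
    cases b with
    | nil => simp [dot]
    | cons y b =>
      rw [List.map_cons, dot_cons, dot_cons, ih]
      ring

/-! ### the certificates -/

/-- a certificate -/
structure Leaf where
  /-- the test function, encoded -/
  phi : ℕ
  /-- the weights of the Fourier coefficients -/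
  W : List ℤ
  /-- the weights of the sector conditions -/
  V : List ℤ
  /-- the number of squares -/
  r : ℕ
  /-- the squares, encoded -/
  L : List ℕ

/-- decoding -/
def dec (m s : ℕ) : ℕ → ℕ → List ℤ
  | 0, _ => []
  | n + 1, x => (((x % m : ℕ) : ℤ) - (s : ℤ)) :: dec m s n (x / m)

/-- the value at the node `c` of the linear form which vanishes on the line through `v` -/
def X (v : ℤ × ℤ) (k c : ℕ) : ℤ := v.1 * (tb (k * c)).2 - v.2 * (tb (k * c)).1

/-- the constant term -/
def K0 (W : List ℤ) : ℤ := 10 ^ 23 - 10 ^ 18 * (W.getD 0 0 + W.getD 1 0 + W.getD 2 0 +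
  W.getD 3 0 + W.getD 4 0 + W.getD 5 0)

/-- left rows -/
def rowA (W V : List ℤ) (lo hi : List (ℤ × ℤ)) (c : ℕ) (l : List ℤ) : List ℤ :=
  K0 W :: (pairs (fun k => (10 ^ 6 * W.getD k 0 * (tb ((k + 1) * c)).1,
      10 ^ 6 * W.getD k 0 * (tb ((k + 1) * c)).2)) 6 ++
    (pairs (fun k => (V.getD k 0 * X (lo.getD k (0, 0)) (k + 1) c,
      V.getD k 0 * X (hi.getD k (0, 0)) (k + 1) c)) 4 ++
    l.map (fun z => (-10 ^ 15) * z)))

/-- right rows -/
def rowB (lo hi : List (ℤ × ℤ)) (c : ℕ) (l : List ℤ) : List ℤ :=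
  1 :: (pairs (fun k => ((tb ((k + 1) * c)).1, (tb ((k + 1) * c)).2)) 6 ++
    (pairs (fun k => (X (hi.getD k (0, 0)) (k + 1) c, X (lo.getD k (0, 0)) (k + 1) c)) 4 ++ l))

/-- all the left rows -/
def mkA (W V : List ℤ) (lo hi : List (ℤ × ℤ)) : ℕ → List (List ℤ) → List (List ℤ)
  | _, [] => []
  | c, l :: ls => rowA W V lo hi c l :: mkA W V lo hi (c + 1) ls

/-- all the right rows -/
def mkB (lo hi : List (ℤ × ℤ)) : ℕ → List (List ℤ) → List (List ℤ)
  | _, [] => []
  | c, l :: ls => rowB lo hi c l :: mkB lo hi (c + 1) ls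

lemma mkA_length (W V : List ℤ) (lo hi : List (ℤ × ℤ)) : ∀ (ls : List (List ℤ)) (c : ℕ),
    (mkA W V lo hi c ls).length = ls.length := by
  intro ls
  induction ls with
  | nil => intro c; rfl
  | cons l ls ih => intro c; rw [mkA, List.length_cons, List.length_cons, ih]

lemma mkB_length (lo hi : List (ℤ × ℤ)) : ∀ (ls : List (List ℤ)) (c : ℕ),
    (mkB lo hi c ls).length = ls.length := by
  intro ls
  induction ls with
  | nil => intro c; rfl
  | cons l ls ih => intro c; rw [mkB, List.length_cons, List.length_cons, ih]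

lemma mkA_getD (W V : List ℤ) (lo hi : List (ℤ × ℤ)) : ∀ (ls : List (List ℤ)) (c d : ℕ),
    d < ls.length → (mkA W V lo hi c ls).getD d [] = rowA W V lo hi (c + d) (ls.getD d []) := by
  intro ls
  induction ls with
  | nil => intro c d hd; simp at hd
  | cons l ls ih =>
    intro c d hd
    cases d with
    | zero => simp [mkA]
    | succ d =>
      rw [mkA, List.getD_cons_succ, List.getD_cons_succ, ih (c + 1) d (by simpa using hd)]
      congr 1
      ring

lemma mkB_getD (lo hi : List (ℤ × ℤ)) : ∀ (ls : List (List ℤ)) (c d : ℕ),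
    d < ls.length → (mkB lo hi c ls).getD d [] = rowB lo hi (c + d) (ls.getD d []) := by
  intro ls
  induction ls with
  | nil => intro c d hd; simp at hd
  | cons l ls ih =>
    intro c d hd
    cases d with
    | zero => simp [mkB]
    | succ d =>
      rw [mkB, List.getD_cons_succ, List.getD_cons_succ, ih (c + 1) d (by simpa using hd)]
      congr 1
      ring

/-- decoding of natural numbers -/
def decN (m : ℕ) : ℕ → ℕ → List ℕ
  | 0, _ => []
  | n + 1, x => x % m :: decN m n (x / m)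

/-- the decoded test function -/
def Leaf.ph (x : Leaf) : List ℕ := decN 262144 40 x.phi

/-- the decoded test function, as a function -/
def Leaf.f (x : Leaf) (s : ℕ) : ℤ := ((x.ph.getD s 0 : ℕ) : ℤ)

/-- the decoded squares -/
def Leaf.ls (x : Leaf) : List (List ℤ) := x.L.map (dec 65536 32768 x.r)

/-- four times the corrected values of the test function -/
def psi (f : ℕ → ℤ) (s : ℕ) : ℤ :=
  if s = 0 then 4 * f 0 else 4 * f s - max 0 (2 * f s - f (s - 1) - f (s + 1))

/-- partial sums -/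
def psum (f : ℕ → ℤ) : ℕ → ℤ
  | 0 => 0
  | n + 1 => psum f n + f n

lemma psum_eq (f : ℕ → ℤ) (n : ℕ) : psum f n = ∑ k ∈ range n, f k := by
  induction n with
  | zero => simp [psum]
  | succ n ih => rw [psum, ih, sum_range_succ]

/-- `10^6 (1 - (0.3338 + δ_k)^2)`, rounded down -/
def cW : List ℤ := [886340, 880015, 869094, 853005, 830949, 801899]

/-- the inequality which is decisive in the end -/
def margin (f : ℕ → ℤ) (W : List ℤ) : Bool :=
  decide (10003 * 16 * 10 ^ 7 * 11253 ≤ 50000 * 10000 * (psi f 0 + 2 * psum (fun s => psi f (s + 1)) 39) +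
    16 * 11253 * (W.getD 0 0 * cW.getD 0 0 + W.getD 1 0 * cW.getD 1 0 + W.getD 2 0 * cW.getD 2 0 +
      W.getD 3 0 * cW.getD 3 0 + W.getD 4 0 * cW.getD 4 0 + W.getD 5 0 * cW.getD 5 0))

/-- the checker -/
def leafCheck (x : Leaf) (lo hi : List (ℤ × ℤ)) : Bool :=
  decide (x.L.length = 41) && decide (∀ k : ℕ, k < 6 → 0 ≤ x.W.getD k 0) &&
    decide (∀ k : ℕ, k < 4 → 0 ≤ x.V.getD k 0) &&
    decide (∀ s : ℕ, s < 40 → 0 ≤ psi x.f s) && margin x.f x.W &&
    checkMat (10 ^ 23) (2 * 10 ^ 9) (20 + x.r) (mkA x.W x.V lo hi 0 x.ls) (mkB lo hi 0 x.ls)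
      (x.ph.map (fun z => 10 ^ 18 * z))

end Pool.Agent.TH265.RB
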