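import Pool.Agent.TH265.RB.Sound

/-!
# Trees of certificates
-/

set_option autoImplicit false

open Finset

namespace Pool.Agent.TH265.RB

/-- a tree of certificates for the box of sectors given by `lo` and `hi` -/
inductive Cov : List (ℤ × ℤ) → List (ℤ × ℤ) → Prop
  | leaf (x : Leaf) (lo hi : List (ℤ × ℤ)) (h : leafCheck x lo hi = true) : Cov lo hi
  | split (lo hi : List (ℤ × ℤ)) (k : ℕ) (m : ℤ × ℤ) (a : Cov lo (hi.set k m))
      (b : Cov (lo.set k m) hi) : Cov lo hi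

lemma getD_set_ne (l : List (ℤ × ℤ)) (k j : ℕ) (m : ℤ × ℤ) (h : k ≠ j) :
    (l.set k m).getD j (0, 0) = l.getD j (0, 0) := by
  simp only [List.getD_eq_getElem?_getD]
  rw [List.getElem?_set_ne h]

lemma getD_set_self (l : List (ℤ × ℤ)) (k : ℕ) (m : ℤ × ℤ) (h : k < l.length) :
    (l.set k m).getD k (0, 0) = m := by
  simp only [List.getD_eq_getElem?_getD]
  rw [List.getElem?_set_self h]
  rfl

lemma set_of_le (l : List (ℤ × ℤ)) (k : ℕ) (m : ℤ × ℤ) (h : l.length ≤ k) :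
    l.set k m = l := List.set_eq_of_length_le h

lemma f_nonneg (x : Leaf) (s : ℕ) : 0 ≤ x.f s := by
  unfold Leaf.f
  positivity

lemma decN_getD_lt (m : ℕ) (hm : 0 < m) : ∀ (n x s : ℕ), (decN m n x).getD s 0 < m := by
  intro n
  induction n with
  | zero => intro x s; simpa [decN] using hm
  | succ n ih =>
    intro x s
    cases s with
    | zero => simpa [decN] using Nat.mod_lt _ hm
    | succ s => rw [decN, List.getD_cons_succ]; exact ih _ _

lemma decN_length (m : ℕ) : ∀ (n x : ℕ), (decN m n x).length = n := by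
  intro n
  induction n with
  | zero => intro x; rfl
  | succ n ih => intro x; rw [decN, List.length_cons, ih]

lemma f_lt (x : Leaf) (s : ℕ) : x.f s < 262144 := by
  unfold Leaf.f Leaf.ph
  exact_mod_cast decN_getD_lt 262144 (by norm_num) 40 x.phi s

lemma f_zero (x : Leaf) (s : ℕ) (hs : 40 ≤ s) : x.f s = 0 := by
  unfold Leaf.f Leaf.ph
  rw [List.getD_eq_default _ _ (by rw [decN_length]; exact hs)]
  rfl

/-- what the digits have to satisfy -/
structure Sys (p : ℕ → ℝ) : Prop where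
  nonneg : ∀ c, 0 ≤ p c
  pos : 0 < ws p fun _ => 1
  fourier : ∀ k < 6, (Cs p (k + 1) ^ 2 + Ss p (k + 1) ^ 2) / 10 ^ 12 ≤
    (1 - ((cW.getD k 0 : ℤ) : ℝ) / 10 ^ 6) * (ws p fun _ => 1) ^ 2
  cover : ∀ f : ℕ → ℤ, (∀ s, 0 ≤ f s) → (∀ s, f s < 262144) → (∀ s, 40 ≤ s → f s = 0) →
    (∀ s < 40, 0 ≤ psi f s) →
    (10000 / (11253 * 320) * ((psi f 0 + 2 * ∑ s ∈ range 39, psi f (s + 1) : ℤ) : ℝ) - 29) *
      (ws p fun _ => 1) ^ 2 ≤
      ∑ c ∈ range 41, ∑ d ∈ range 41, p c * p d * ((f (c + d) : ℤ) : ℝ)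

lemma aux (S Q P u0 u1 u2 u3 u4 u5 c0 c1 c2 c3 c4 c5 g0 g1 g2 g3 g4 g5 : ℝ) (hQ : 0 < Q)
    (h1 : S ≤ (10 ^ 5 - (u0 + u1 + u2 + u3 + u4 + u5)) * Q +
      (u0 * g0 + u1 * g1 + u2 * g2 + u3 * g3 + u4 * g4 + u5 * g5))
    (h2 : (10000 / (11253 * 320) * P - 29) * Q ≤ S)
    (h3 : u0 * g0 + u1 * g1 + u2 * g2 + u3 * g3 + u4 * g4 + u5 * g5 ≤
      u0 * ((1 - c0 / 10 ^ 6) * Q) + u1 * ((1 - c1 / 10 ^ 6) * Q) + u2 * ((1 - c2 / 10 ^ 6) * Q) +
      u3 * ((1 - c3 / 10 ^ 6) * Q) + u4 * ((1 - c4 / 10 ^ 6) * Q) + u5 * ((1 - c5 / 10 ^ 6) * Q))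
    (h4 : 10003 * 16 * 10 ^ 7 * 11253 ≤ 50000 * 10000 * P +
      16 * 11253 * (u0 * c0 + u1 * c1 + u2 * c2 + u3 * c3 + u4 * c4 + u5 * c5)) : False := by
  have h5 := mul_le_mul_of_nonneg_right h4 hQ.le
  linarith

theorem cov_false (lo hi : List (ℤ × ℤ)) (h : Cov lo hi) (p : ℕ → ℝ) (hp : Sys p)
    (hsec : ∀ k < 4, Xs p (lo.getD k (0, 0)) (k + 1) * Xs p (hi.getD k (0, 0)) (k + 1) ≤ 0) :
    False := by
  induction h with
  | leaf x lo hi h =>
    have h1 := leaf_sound x lo hi h p hp.nonneg hsec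
    unfold leafCheck at h
    simp only [Bool.and_eq_true, decide_eq_true_eq] at h
    obtain ⟨⟨⟨⟨⟨-, hW⟩, -⟩, hpsi⟩, hmar⟩, -⟩ := h
    have h2 := hp.cover x.f (f_nonneg x) (f_lt x) (f_zero x) hpsi
    unfold margin at hmar
    rw [decide_eq_true_eq, psum_eq] at hmar
    have h3 : ∑ k ∈ range 6, ((x.W.getD k 0 : ℤ) : ℝ) *
          ((Cs p (k + 1) ^ 2 + Ss p (k + 1) ^ 2) / 10 ^ 12) ≤
        ∑ k ∈ range 6, ((x.W.getD k 0 : ℤ) : ℝ) *
          ((1 - ((cW.getD k 0 : ℤ) : ℝ) / 10 ^ 6) * (ws p fun _ => 1) ^ 2) := by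
      refine sum_le_sum fun k hk => ?_
      have a1 : (0 : ℝ) ≤ ((x.W.getD k 0 : ℤ) : ℝ) := by exact_mod_cast hW k (mem_range.1 hk)
      exact mul_le_mul_of_nonneg_left (hp.fourier k (mem_range.1 hk)) a1
    set P : ℤ := psi x.f 0 + 2 * ∑ s ∈ range 39, psi x.f (s + 1) with hP
    have hK := hp.pos
    set K := ws p fun _ => 1 with hKdef
    have h4 : ((10003 * 16 * 10 ^ 7 * 11253 : ℤ) : ℝ) ≤ ((50000 * 10000 * P +
      16 * 11253 * (x.W.getD 0 0 * cW.getD 0 0 + x.W.getD 1 0 * cW.getD 1 0 +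
      x.W.getD 2 0 * cW.getD 2 0 + x.W.getD 3 0 * cW.getD 3 0 + x.W.getD 4 0 * cW.getD 4 0 +
      x.W.getD 5 0 * cW.getD 5 0) : ℤ) : ℝ) := by exact_mod_cast hmar
    push_cast at h4
    have e6 : ∀ g : ℕ → ℝ, ∑ k ∈ range 6, g k = g 0 + g 1 + g 2 + g 3 + g 4 + g 5 := by
      intro g
      simp only [sum_range_succ, range_zero, sum_empty, zero_add]
    rw [e6, e6] at h1
    rw [e6, e6] at h3
    have hK2 : 0 < K ^ 2 := by positivity
    exact aux _ _ _ _ _ _ _ _ _ _ _ _ _ _ _ _ _ _ _ _ _ hK2 h1 h2 h3 (by linarith [h4])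
  | split lo hi k m a b iha ihb =>
    by_cases hlo : lo.length ≤ k
    · rw [set_of_le _ _ _ hlo] at ihb
      exact ihb hsec
    by_cases hhi : hi.length ≤ k
    · rw [set_of_le _ _ _ hhi] at iha
      exact iha hsec
    push Not at hlo hhi
    by_cases hk : k < 4
    · have h1 := hsec k hk
      by_cases h2 : Xs p (lo.getD k (0, 0)) (k + 1) * Xs p m (k + 1) ≤ 0
      · refine iha fun j hj => ?_
        by_cases hjk : k = j
        · subst hjk
          rw [getD_set_self _ _ _ hhi]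
          exact h2
        · rw [getD_set_ne _ _ _ _ hjk]
          exact hsec j hj
      · have h3 : Xs p m (k + 1) * Xs p (hi.getD k (0, 0)) (k + 1) ≤ 0 := by
          push Not at h2
          by_contra h4
          push Not at h4
          have h5 := mul_pos h2 h4
          have h6 : Xs p (lo.getD k (0, 0)) (k + 1) * Xs p m (k + 1) *
              (Xs p m (k + 1) * Xs p (hi.getD k (0, 0)) (k + 1)) =
              Xs p m (k + 1) ^ 2 *
              (Xs p (lo.getD k (0, 0)) (k + 1) * Xs p (hi.getD k (0, 0)) (k + 1)) := by ring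
          rw [h6] at h5
          have h7 := mul_nonpos_of_nonneg_of_nonpos (sq_nonneg (Xs p m (k + 1))) h1
          linarith
        refine ihb fun j hj => ?_
        by_cases hjk : k = j
        · subst hjk
          rw [getD_set_self _ _ _ hlo]
          exact h3
        · rw [getD_set_ne _ _ _ _ hjk]
          exact hsec j hj
    · refine iha fun j hj => ?_
      rw [getD_set_ne _ _ _ _ (by omega)]
      exact hsec j hj

end Pool.Agent.TH265.RB
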