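import Mathlib

/-!
# Linear interpolation of the unit circle
-/

set_option autoImplicit false

namespace Pool.Agent.TH265.RB

lemma convex_cos_sq : ConvexOn ℝ Set.univ (fun x : ℝ => Real.cos x + x ^ 2 / 2) := by
  have h1 : ∀ x : ℝ, HasDerivAt (fun x : ℝ => Real.cos x + x ^ 2 / 2) (-Real.sin x + x) x := by
    intro x
    have h := (Real.hasDerivAt_cos x).add ((hasDerivAt_pow 2 x).div_const 2)
    exact h.congr_deriv (by norm_num)
  have h2 : deriv (fun x : ℝ => Real.cos x + x ^ 2 / 2) = fun x => -Real.sin x + x :=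
    funext fun x => (h1 x).deriv
  have h3 : ∀ x : ℝ, HasDerivAt (fun x : ℝ => -Real.sin x + x) (-Real.cos x + 1) x := by
    intro x
    exact (Real.hasDerivAt_sin x).neg.add (hasDerivAt_id x)
  refine convexOn_univ_of_deriv2_nonneg (fun x => (h1 x).differentiableAt) ?_ ?_
  · rw [h2]
    exact fun x => (h3 x).differentiableAt
  · intro x
    have h4 : deriv^[2] (fun x : ℝ => Real.cos x + x ^ 2 / 2) x = -Real.cos x + 1 := by
      show deriv (deriv (fun x : ℝ => Real.cos x + x ^ 2 / 2)) x = _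
      rw [h2]
      exact (h3 x).deriv
    rw [h4]
    have := Real.cos_le_one x
    linarith

lemma cos_interp (α θ u : ℝ) (h0 : 0 ≤ u) (h1 : u ≤ 1) :
    Real.cos (u * α - θ) - (1 - u) * Real.cos θ - u * Real.cos (α - θ) ≤ α ^ 2 / 8 := by
  have h := convex_cos_sq.2 (Set.mem_univ (-θ)) (Set.mem_univ (α - θ))
    (show (0 : ℝ) ≤ 1 - u by linarith) h0 (by ring)
  simp only [smul_eq_mul, Real.cos_neg] at h
  have e1 : (1 - u) * -θ + u * (α - θ) = u * α - θ := by ring
  rw [e1] at h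
  have h2 : 0 ≤ α ^ 2 * (1 - 2 * u) ^ 2 := by positivity
  nlinarith

/-- the error of linear interpolation on the unit circle -/
lemma circle_interp (α u : ℝ) (h0 : 0 ≤ u) (h1 : u ≤ 1) :
    ‖(1 - u : ℂ) + u * Complex.exp (Complex.I * α) - Complex.exp (Complex.I * (u * α : ℝ))‖ ≤
      α ^ 2 / 8 := by
  set E : ℂ := Complex.exp (Complex.I * (u * α : ℝ)) - (1 - u : ℂ) -
    u * Complex.exp (Complex.I * α) with hE
  have hn : ‖(1 - u : ℂ) + u * Complex.exp (Complex.I * α) -
      Complex.exp (Complex.I * (u * α : ℝ))‖ = ‖E‖ := by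
    rw [← norm_neg, hE]
    congr 1
    ring
  rw [hn]
  set θ : ℝ := Complex.arg E with hθ
  have h2 : (‖E‖ : ℂ) = E * Complex.exp (Complex.I * (-θ : ℝ)) := by
    have h3 := Complex.norm_mul_exp_arg_mul_I E
    nth_rewrite 2 [← h3]
    rw [mul_assoc, ← Complex.exp_add]
    have h4 : (Complex.arg E : ℂ) * Complex.I + Complex.I * ((-θ : ℝ) : ℂ) = 0 := by
      rw [hθ]; push_cast; ring
    rw [h4, Complex.exp_zero, mul_one]
  have h5 : ‖E‖ = (E * Complex.exp (Complex.I * (-θ : ℝ))).re := by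
    rw [← h2, Complex.ofReal_re]
  have hre : ∀ t : ℝ, (Complex.exp (Complex.I * (t : ℂ))).re = Real.cos t := by
    intro t
    rw [mul_comm, Complex.exp_ofReal_mul_I_re]
  have h6 : E * Complex.exp (Complex.I * (-θ : ℝ)) =
      Complex.exp (Complex.I * ((u * α - θ : ℝ) : ℂ)) -
        ((1 - u : ℝ) : ℂ) * Complex.exp (Complex.I * ((-θ : ℝ) : ℂ)) -
        (u : ℂ) * Complex.exp (Complex.I * ((α - θ : ℝ) : ℂ)) := by
    rw [hE, sub_mul, sub_mul, ← Complex.exp_add, mul_assoc (u : ℂ), ← Complex.exp_add]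
    push_cast
    ring_nf
  rw [h5, h6, Complex.sub_re, Complex.sub_re, Complex.re_ofReal_mul, Complex.re_ofReal_mul,
    hre, hre, hre, Real.cos_neg]
  exact cos_interp α θ u h0 h1

end Pool.Agent.TH265.RB
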