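import Pool.Agent.TH265.RB.Abel
import Pool.Agent.TH265.RB.Interp

/-!
# Six Fourier coefficients
-/

set_option autoImplicit false
set_option linter.unusedSectionVars false

open Finset

namespace Pool.Agent.TH265.RB

open Pool.Agent.H394R2.Ones Pool.Agent.H820R3.DG

section
variable {b : ℕ} {y : ℝ} (hb : 2 ≤ b) (hy0 : 0 < y) (hy1 : y < 1) (hirr : Irrational y)
  {τ D : ℝ} {n : ℕ} {d : ℕ → ℝ} (hd0 : ∀ m, 0 ≤ d m) (hd : ∀ m, τ - d m ≤ T b y m)
  (hD : ∑ m ∈ range n, d m ≤ D)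

/-- the error term -/
noncomputable def Er6 (b : ℕ) (y τ D : ℝ) (n : ℕ) : ℝ :=
  (K b y n : ℝ) ^ 2 - ((b : ℝ) - 1) * τ * n + 2 * ((b : ℝ) - 1) * D + (38 * b + 2) * (K b y n + 1)

include hb hy0 hy1 hirr hd0 hd hD in
lemma norm_r_sum6 (hn : 0 < n) {w : ℂ} (hw1 : ‖w‖ = 1) (hwn : w ^ n = 1) (hw : w ≠ 1)
    (hwd : ‖w - 1‖ * n ≤ 38) :
    ‖∑ m ∈ range (n + 1), (r b y m : ℂ) * w ^ m‖ + (K b y n : ℝ) ^ 2 - R b y n ≤
      Er6 b y τ D n := by
  have hbR : (2 : ℝ) ≤ b := by exact_mod_cast hb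
  have hn0 : (0 : ℝ) < n := by exact_mod_cast hn
  have hwp : ∀ m, ‖w ^ m‖ = 1 := fun m => by rw [norm_pow, hw1, one_pow]
  have hgeom : ∑ m ∈ range n, w ^ m = 0 := by
    have h := mul_neg_geom_sum w n
    rw [hwn, sub_self] at h
    rcases mul_eq_zero.mp h with h | h
    · exact absurd (by linear_combination -h) hw
    · exact h
  have hA : ∑ m ∈ range n, (T b y m : ℂ) * w ^ m
      = ∑ m ∈ range n, ((T b y m - τ : ℝ) : ℂ) * w ^ m := by
    have h1 : ∑ m ∈ range n, ((T b y m - τ : ℝ) : ℂ) * w ^ m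
        = ∑ m ∈ range n, (T b y m : ℂ) * w ^ m - τ * ∑ m ∈ range n, w ^ m := by
      rw [mul_sum, ← sum_sub_distrib]
      refine sum_congr rfl fun m _ => ?_
      push_cast
      ring
    rw [h1, hgeom, mul_zero, sub_zero]
  have h1 : ‖∑ m ∈ range n, (T b y m : ℂ) * w ^ m‖ ≤ ∑ m ∈ range n, |T b y m - τ| := by
    rw [hA]
    refine (norm_sum_le _ _).trans (sum_le_sum fun m _ => ?_)
    rw [norm_mul, hwp, mul_one, Complex.norm_real, Real.norm_eq_abs]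
  have h2 : ‖∑ m ∈ range n, (T b y m : ℂ) * w ^ m‖ ≤ ∑ m ∈ range n, T b y m := by
    refine (norm_sum_le _ _).trans (sum_le_sum fun m _ => ?_)
    rw [norm_mul, hwp, mul_one, Complex.norm_real, Real.norm_eq_abs,
      abs_of_pos (T_pos hb hy0 hy1 hirr m)]
  have h3 := T_abs_sum' hd0 hd hD
  have h4 := T_sum_le hb hy0 hy1 hirr n
  have h5 := R_eq hb hy0 hy1 n
  have h6 := T_le hb hy0 hy1 (b := b) n
  have h7 := T_pos hb hy0 hy1 hirr n
  have h8 := T_pos hb hy0 hy1 hirr 0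
  have hK : (0 : ℝ) ≤ K b y n := Nat.cast_nonneg _
  have h9 : ‖∑ m ∈ range (n + 1), (r b y m : ℂ) * w ^ m‖ ≤
      ((b : ℝ) - 1) * (∑ m ∈ range n, |T b y m - τ|) + b * ‖w - 1‖ * (∑ m ∈ range n, T b y m)
        + T b y 0 + T b y n := by
    rw [r_sum hb hy0 hy1 w n]
    have e1 : ‖((b : ℂ) - 1)‖ = (b : ℝ) - 1 := by
      have : ((b : ℂ) - 1) = (((b : ℝ) - 1 : ℝ) : ℂ) := by push_cast; ring
      rw [this, Complex.norm_real, Real.norm_eq_abs, abs_of_nonneg (by linarith)]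
    have e2 : ‖(T b y 0 : ℂ)‖ = T b y 0 := by
      rw [Complex.norm_real, Real.norm_eq_abs, abs_of_pos h8]
    have e3 : ‖(T b y n : ℂ) * w ^ n‖ = T b y n := by
      rw [norm_mul, hwp, mul_one, Complex.norm_real, Real.norm_eq_abs, abs_of_pos h7]
    have e4 : ‖((b : ℂ) - 1) * ∑ m ∈ range n, (T b y m : ℂ) * w ^ m‖
        ≤ ((b : ℝ) - 1) * (∑ m ∈ range n, |T b y m - τ|) := by
      rw [norm_mul, e1]
      exact mul_le_mul_of_nonneg_left h1 (by linarith)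
    have e5 : ‖(b : ℂ) * (w - 1) * ∑ m ∈ range n, (T b y m : ℂ) * w ^ m‖
        ≤ b * ‖w - 1‖ * (∑ m ∈ range n, T b y m) := by
      rw [norm_mul, norm_mul, Complex.norm_natCast]
      exact mul_le_mul_of_nonneg_left h2 (by positivity)
    calc _ ≤ ‖((b : ℂ) - 1) * ∑ m ∈ range n, (T b y m : ℂ) * w ^ m
          + (b : ℂ) * (w - 1) * ∑ m ∈ range n, (T b y m : ℂ) * w ^ m + T b y 0‖
          + ‖(T b y n : ℂ) * w ^ n‖ := norm_sub_le _ _
      _ ≤ ‖((b : ℂ) - 1) * ∑ m ∈ range n, (T b y m : ℂ) * w ^ m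
          + (b : ℂ) * (w - 1) * ∑ m ∈ range n, (T b y m : ℂ) * w ^ m‖ + ‖(T b y 0 : ℂ)‖
          + ‖(T b y n : ℂ) * w ^ n‖ := by gcongr; exact norm_add_le _ _
      _ ≤ ‖((b : ℂ) - 1) * ∑ m ∈ range n, (T b y m : ℂ) * w ^ m‖
          + ‖(b : ℂ) * (w - 1) * ∑ m ∈ range n, (T b y m : ℂ) * w ^ m‖ + ‖(T b y 0 : ℂ)‖
          + ‖(T b y n : ℂ) * w ^ n‖ := by gcongr; exact norm_add_le _ _
      _ ≤ _ := by rw [e2, e3]; gcongr
  have h10 : b * ‖w - 1‖ * (∑ m ∈ range n, T b y m) ≤ 38 * b * (K b y n + 1) := by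
    calc b * ‖w - 1‖ * (∑ m ∈ range n, T b y m) ≤ b * ‖w - 1‖ * (n * (K b y n + 1)) :=
          mul_le_mul_of_nonneg_left h4 (by positivity)
      _ = b * (K b y n + 1) * (‖w - 1‖ * n) := by ring
      _ ≤ b * (K b y n + 1) * 38 := mul_le_mul_of_nonneg_left hwd (by positivity)
      _ = _ := by ring
  have h11 : ((b : ℝ) - 1) * (∑ m ∈ range n, |T b y m - τ|) ≤
      ((b : ℝ) - 1) * (∑ m ∈ range n, T b y m - τ * n + 2 * D) :=
    mul_le_mul_of_nonneg_left h3 (by linarith)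
  unfold Er6
  nlinarith

include hb hy0 hy1 hirr hd0 hd hD in
lemma F_bound6 {θ : ℝ} (h0 : 0 < θ) (h1 : θ < 2 * Real.pi)
    (hθ : ∃ j : ℕ, θ * n = j * (2 * Real.pi)) (h2 : θ * n ≤ 38) (hn : 0 < n) :
    ‖F b y n (Complex.exp (Complex.I * (θ : ℂ)))‖ ^ 2 ≤ Er6 b y τ D n := by
  set w : ℂ := Complex.exp (Complex.I * (θ : ℂ)) with hw
  have hw1 : ‖w‖ = 1 := by
    rw [hw, mul_comm]
    exact Complex.norm_exp_ofReal_mul_I θ
  have hwn : w ^ n = 1 := by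
    obtain ⟨j, hj⟩ := hθ
    rw [hw, ← Complex.exp_nat_mul, Complex.exp_eq_one_iff]
    refine ⟨j, ?_⟩
    have : ((θ * n : ℝ) : ℂ) = ((j * (2 * Real.pi) : ℝ) : ℂ) := by rw [hj]
    push_cast at this ⊢
    linear_combination Complex.I * this
  have hne : w ≠ 1 := by
    intro h
    rw [hw, Complex.exp_eq_one_iff] at h
    obtain ⟨m, hm⟩ := h
    have h3 : θ = m * (2 * Real.pi) := by
      have h4 : Complex.I * (θ : ℂ) = Complex.I * ((m * (2 * Real.pi) : ℝ) : ℂ) := by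
        rw [hm]; push_cast; ring
      have h5 := mul_left_cancel₀ Complex.I_ne_zero h4
      exact_mod_cast h5
    have hpi := Real.pi_pos
    have h6 : (0 : ℝ) < m := by
      by_contra hcon
      have : (m : ℝ) * (2 * Real.pi) ≤ 0 := by nlinarith
      linarith
    have h7 : (m : ℝ) < 1 := by
      by_contra hcon
      have : 1 * (2 * Real.pi) ≤ (m : ℝ) * (2 * Real.pi) := by nlinarith
      linarith
    have h8 : (0 : ℤ) < m := by exact_mod_cast h6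
    have h9 : m < (1 : ℤ) := by exact_mod_cast h7
    omega
  have hdd : ‖w - 1‖ * n ≤ 38 := by
    have h3 : ‖w - 1‖ ≤ θ := by
      have := Real.norm_exp_I_mul_ofReal_sub_one_le (x := θ)
      rw [Real.norm_eq_abs, abs_of_pos h0] at this
      exact this
    have h4 : (0 : ℝ) ≤ n := Nat.cast_nonneg _
    nlinarith
  have h3 := norm_r_sum6 hb hy0 hy1 hirr hd0 hd hD hn hw1 hwn hne hdd
  have h4 := F_sq (b := b) (y := y) n hw1
  have h5 : (K b y n : ℝ) ^ 2 = R b y n + Q b y n := by exact_mod_cast K_sq (b := b) (y := y) n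
  linarith

end

end Pool.Agent.TH265.RB
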