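import Pool.Agent.TH265.RB.Cover

/-!
# Hat functions and the covering inequality
-/

set_option autoImplicit false

open Finset

namespace Pool.Agent.TH265.RB

/-- the fractional part of `i / q` -/
noncomputable def fr (q i : ℕ) : ℝ := ((i % q : ℕ) : ℝ) / q

/-- the weight of `i` at the node `c` -/
noncomputable def hat (q i c : ℕ) : ℝ :=
  (if c = i / q then 1 - fr q i else 0) + (if c = i / q + 1 then fr q i else 0)

lemma fr_nonneg (q i : ℕ) : 0 ≤ fr q i := by unfold fr; positivity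

lemma fr_lt (q i : ℕ) (hq : 0 < q) : fr q i < 1 := by
  unfold fr
  rw [div_lt_one (by exact_mod_cast hq)]
  exact_mod_cast Nat.mod_lt _ hq

lemma hat_nonneg (q i c : ℕ) (hq : 0 < q) : 0 ≤ hat q i c := by
  unfold hat
  have h1 := fr_nonneg q i
  have h2 := fr_lt q i hq
  split_ifs <;> linarith

lemma hat_sum {M : Type} [AddCommGroup M] [Module ℝ M] (q i : ℕ) (hq : 0 < q) (hi : i ≤ 40 * q)
    (G : ℕ → M) : ∑ c ∈ range 41, hat q i c • G c =
      (1 - fr q i) • G (i / q) + fr q i • G (i / q + 1) := by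
  unfold hat
  simp only [add_smul, sum_add_distrib, ite_smul, zero_smul]
  rw [sum_ite_eq', sum_ite_eq']
  have h1 : i / q < 41 := by
    rw [Nat.div_lt_iff_lt_mul hq]; nlinarith
  rw [if_pos (mem_range.2 h1)]
  congr 1
  by_cases h2 : i / q + 1 < 41
  · rw [if_pos (mem_range.2 h2)]
  · rw [if_neg (by rw [mem_range]; exact h2)]
    have h3 : i / q = 40 := by omega
    have h4 : i = 40 * q := by
      have h5 := Nat.div_mul_le_self i q
      rw [h3] at h5
      omega
    have h6 : fr q i = 0 := by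
      unfold fr
      rw [h4, Nat.mul_mod_left]
      simp
    rw [h6, zero_smul]

/-- the mass at the node `c` -/
noncomputable def pw (X : ℕ → ℝ) (q c : ℕ) : ℝ := ∑ i ∈ range (40 * q + 1), X i * hat q i c

lemma pw_nonneg (X : ℕ → ℝ) (hX : ∀ i, 0 ≤ X i) (q c : ℕ) (hq : 0 < q) : 0 ≤ pw X q c :=
  sum_nonneg fun i _ => mul_nonneg (hX i) (hat_nonneg q i c hq)

lemma pw_sum {M : Type} [AddCommGroup M] [Module ℝ M] (X : ℕ → ℝ) (q : ℕ) (hq : 0 < q)
    (G : ℕ → M) : ∑ c ∈ range 41, pw X q c • G c =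
      ∑ i ∈ range (40 * q + 1), X i • ((1 - fr q i) • G (i / q) + fr q i • G (i / q + 1)) := by
  unfold pw
  simp only [sum_smul]
  rw [sum_comm]
  refine sum_congr rfl fun i hi => ?_
  rw [← hat_sum q i hq (by have := mem_range.1 hi; omega) G, smul_sum]
  exact sum_congr rfl fun c _ => by rw [mul_smul]

/-- the test function on the integers -/
noncomputable def tg (f : ℕ → ℤ) (q m : ℕ) : ℝ :=
  ((1 - fr q m) * psi f (m / q) + fr q m * psi f (m / q + 1)) / 4

lemma psi_le (f : ℕ → ℤ) (s : ℕ) : psi f s ≤ 4 * f s := by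
  unfold psi
  split_ifs with h
  · rw [h]
  · have := le_max_left (0 : ℤ) (2 * f s - f (s - 1) - f (s + 1))
    linarith

lemma psi_succ (f : ℕ → ℤ) (s : ℕ) :
    psi f (s + 1) = 4 * f (s + 1) - max 0 (2 * f (s + 1) - f s - f (s + 2)) := by
  unfold psi
  rw [if_neg (by omega), Nat.add_sub_cancel]

/-- the pointwise covering inequality -/
lemma point (f : ℕ → ℤ) (q i j : ℕ) (hq : 0 < q) :
    tg f q (i + j) ≤ (1 - fr q i) * ((1 - fr q j) * f (i / q + j / q) +
      fr q j * f (i / q + (j / q + 1))) + fr q i * ((1 - fr q j) * f (i / q + 1 + j / q) +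
      fr q j * f (i / q + 1 + (j / q + 1))) := by
  have hqR : (0 : ℝ) < q := by exact_mod_cast hq
  set a := i / q with ha
  set b := j / q with hb
  set u := fr q i with hu
  set v := fr q j with hv
  have hu0 : 0 ≤ u := fr_nonneg q i
  have hv0 : 0 ≤ v := fr_nonneg q j
  have hu1 : u < 1 := fr_lt q i hq
  have hv1 : v < 1 := fr_lt q j hq
  rw [show a + (b + 1) = a + b + 1 by ring, show a + 1 + b = a + b + 1 by ring,
    show a + 1 + (b + 1) = a + b + 2 by ring]
  set s := a + b with hs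
  have hi : i = q * a + i % q := (Nat.div_add_mod i q).symm
  have hj : j = q * b + j % q := (Nat.div_add_mod j q).symm
  have hmi := Nat.mod_lt i hq
  have hmj := Nat.mod_lt j hq
  have hij : i + j = s * q + (i % q + j % q) := by
    have e : s * q = q * a + q * b := by rw [hs]; ring
    omega
  clear_value a b
  set w : ℝ := ((max 0 (2 * f (s + 1) - f s - f (s + 2)) : ℤ) : ℝ) with hw
  have hw0 : 0 ≤ w := by
    rw [hw]; exact_mod_cast le_max_left _ _
  have hw1 : 2 * (f (s + 1) : ℝ) - f s - f (s + 2) ≤ w := by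
    rw [hw]; exact_mod_cast le_max_right (0 : ℤ) (2 * f (s + 1) - f s - f (s + 2))
  have hps : ((psi f (s + 1) : ℤ) : ℝ) = 4 * f (s + 1) - w := by
    rw [psi_succ, hw]; push_cast; ring
  by_cases hc : i % q + j % q < q
  · have h1 : (i + j) / q = s := by
      apply Nat.div_eq_of_lt_le
      · omega
      · rw [add_mul, one_mul]; omega
    have h2 : (i + j) % q = i % q + j % q := by
      rw [Nat.add_mod]; exact Nat.mod_eq_of_lt hc
    have h3 : fr q (i + j) = u + v := by
      rw [hu, hv]; unfold fr; rw [h2]; push_cast; ring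
    unfold tg
    rw [h1, h3, hps]
    have h4 : u + v < 1 := by
      rw [← h3]; exact fr_lt _ _ hq
    have h5 : ((psi f s : ℤ) : ℝ) ≤ 4 * f s := by exact_mod_cast psi_le f s
    have h6 : 4 * (u * v) ≤ u + v := by nlinarith [sq_nonneg (u - v)]
    have h7 : (1 - (u + v)) * ((psi f s : ℤ) : ℝ) ≤ (1 - (u + v)) * (4 * f s) :=
      mul_le_mul_of_nonneg_left h5 (by linarith)
    have h8 : (u * v) * (2 * (f (s + 1) : ℝ) - f s - f (s + 2)) ≤ (u * v) * w :=
      mul_le_mul_of_nonneg_left hw1 (mul_nonneg hu0 hv0)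
    have h9 : 4 * (u * v) * w ≤ (u + v) * w := mul_le_mul_of_nonneg_right h6 hw0
    linarith
  · push Not at hc
    have h1 : (i + j) / q = s + 1 := by
      apply Nat.div_eq_of_lt_le
      · rw [add_mul, one_mul]; omega
      · rw [add_mul, add_mul, one_mul]; omega
    have h2 : (i + j) % q = i % q + j % q - q := by
      rw [Nat.add_mod, Nat.mod_eq_sub_mod hc]
      exact Nat.mod_eq_of_lt (by omega)
    have h3 : fr q (i + j) = u + v - 1 := by
      rw [hu, hv]; unfold fr; rw [h2, Nat.cast_sub hc]; push_cast; field_simp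
    unfold tg
    rw [h1, h3, hps]
    have h4 : 0 ≤ u + v - 1 := by
      rw [← h3]; exact fr_nonneg _ _
    have h5 : ((psi f (s + 1 + 1) : ℤ) : ℝ) ≤ 4 * f (s + 2) := by exact_mod_cast psi_le f (s + 2)
    have h6 : 4 * ((1 - u) * (1 - v)) ≤ (1 - u) + (1 - v) := by nlinarith [sq_nonneg (u - v)]
    have h7 : (u + v - 1) * ((psi f (s + 1 + 1) : ℤ) : ℝ) ≤ (u + v - 1) * (4 * f (s + 2)) :=
      mul_le_mul_of_nonneg_left h5 h4
    have h8 : ((1 - u) * (1 - v)) * (2 * (f (s + 1) : ℝ) - f s - f (s + 2)) ≤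
        ((1 - u) * (1 - v)) * w :=
      mul_le_mul_of_nonneg_left hw1 (mul_nonneg (by linarith) (by linarith))
    have h9 : 4 * ((1 - u) * (1 - v)) * w ≤ ((1 - u) + (1 - v)) * w :=
      mul_le_mul_of_nonneg_right h6 hw0
    linarith

/-- the covering inequality for pairs -/
lemma pairs_ge (f : ℕ → ℤ) (X : ℕ → ℝ) (hX : ∀ i, 0 ≤ X i) (q : ℕ) (hq : 0 < q) :
    ∑ i ∈ range (40 * q + 1), ∑ j ∈ range (40 * q + 1), X i * X j * tg f q (i + j) ≤
      ∑ c ∈ range 41, ∑ d ∈ range 41, pw X q c * pw X q d * ((f (c + d) : ℤ) : ℝ) := by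
  have h1 : ∑ c ∈ range 41, ∑ d ∈ range 41, pw X q c * pw X q d * ((f (c + d) : ℤ) : ℝ) =
      ∑ c ∈ range 41, pw X q c • ∑ d ∈ range 41, pw X q d • ((f (c + d) : ℤ) : ℝ) := by
    refine sum_congr rfl fun c _ => ?_
    rw [smul_sum]
    exact sum_congr rfl fun d _ => by simp only [smul_eq_mul]; ring
  rw [h1, pw_sum X q hq]
  refine sum_le_sum fun i hi => ?_
  rw [pw_sum X q hq, pw_sum X q hq]
  simp only [smul_eq_mul]
  rw [mul_sum, mul_sum, ← sum_add_distrib, mul_sum]
  refine sum_le_sum fun j _ => ?_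
  have h2 := mul_le_mul_of_nonneg_left (point f q i j hq) (mul_nonneg (hX i) (hX j))
  refine h2.trans (le_of_eq ?_)
  ring

end Pool.Agent.TH265.RB
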