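import Pool.Agent.TH265.RB.Four6

/-!
# Fourier coefficients of the interpolated measure
-/

set_option autoImplicit false
set_option linter.unusedSectionVars false

open Finset

namespace Pool.Agent.TH265.RB

open Pool.Agent.H394R2.Ones Pool.Agent.H820R3.DG

section
variable {b : ℕ} {y : ℝ} {q : ℕ} (hq : 0 < q)

/-- the digits as real numbers -/
noncomputable def dg (b : ℕ) (y : ℝ) (i : ℕ) : ℝ := (x b y i : ℝ)

lemma dg_nonneg (i : ℕ) : 0 ≤ dg b y i := Nat.cast_nonneg _

lemma dg_sum (n : ℕ) : ∑ i ∈ range (n + 1), dg b y i = K b y n := by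
  unfold K dg
  push_cast
  rfl

include hq in
lemma pw_total : ∑ c ∈ range 41, pw (dg b y) q c = K b y (40 * q) := by
  have h := pw_sum (M := ℝ) (dg b y) q hq (fun _ => (1 : ℝ))
  simp only [smul_eq_mul, mul_one] at h
  rw [h, ← dg_sum]
  exact sum_congr rfl fun i _ => by ring

lemma fr_eq (hq : 0 < q) (i : ℕ) : ((i / q : ℕ) : ℝ) + fr q i = (i : ℝ) / q := by
  have hqR : (0 : ℝ) < q := by exact_mod_cast hq
  have h : ((q * (i / q) + i % q : ℕ) : ℝ) = i := by rw [Nat.div_add_mod]
  push_cast at h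
  unfold fr
  rw [← h]
  field_simp

include hq in
lemma term_err (k i : ℕ) :
    ‖(1 - fr q i) • om ^ (k * (i / q)) + fr q i • om ^ (k * (i / q + 1)) -
      Complex.exp (Complex.I * ((k * (Real.pi / 20) / q : ℝ) : ℂ)) ^ i‖ ≤
      (k * (Real.pi / 20)) ^ 2 / 8 := by
  have hqR : (0 : ℝ) < q := by exact_mod_cast hq
  set α : ℝ := k * (Real.pi / 20) with hα
  set u := fr q i with hu
  have h1 := circle_interp α u (fr_nonneg q i) (fr_lt q i hq).le
  have e1 : om ^ k = Complex.exp (Complex.I * (α : ℂ)) := by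
    unfold om
    rw [← Complex.exp_nat_mul, hα]
    congr 1
    push_cast
    ring
  have e2 : Complex.exp (Complex.I * ((α / q : ℝ) : ℂ)) ^ i =
      om ^ (k * (i / q)) * Complex.exp (Complex.I * ((u * α : ℝ) : ℂ)) := by
    rw [pow_mul, e1, ← Complex.exp_nat_mul, ← Complex.exp_nat_mul, ← Complex.exp_add]
    congr 1
    have h2 := fr_eq hq i
    have h3 : (i : ℝ) * (α / q) = (i / q : ℕ) * α + u * α := by
      rw [hu]
      calc (i : ℝ) * (α / q) = α * ((i : ℝ) / q) := by ring
        _ = α * ((i / q : ℕ) + fr q i) := by rw [h2]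
        _ = _ := by ring
    have h4 : (((i : ℝ) * (α / q) : ℝ) : ℂ) = (((i / q : ℕ) * α + u * α : ℝ) : ℂ) := by rw [h3]
    push_cast at h4 ⊢
    linear_combination Complex.I * h4
  have e3 : (1 - u) • om ^ (k * (i / q)) + u • om ^ (k * (i / q + 1)) -
      Complex.exp (Complex.I * ((α / q : ℝ) : ℂ)) ^ i =
      om ^ (k * (i / q)) * ((1 - u : ℂ) + u * Complex.exp (Complex.I * α) -
        Complex.exp (Complex.I * (u * α : ℝ))) := by
    rw [e2, mul_add k, mul_one, pow_add, e1, Complex.real_smul, Complex.real_smul]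
    push_cast
    ring
  rw [e3, norm_mul, norm_pow, om_norm, one_pow, one_mul]
  exact h1

include hq in
lemma link (k : ℕ) : ‖∑ c ∈ range 41, pw (dg b y) q c • tau (k * c)‖ ≤
    ‖F b y (40 * q) (Complex.exp (Complex.I * ((k * (Real.pi / 20) / q : ℝ) : ℂ)))‖ +
      ((k * (Real.pi / 20)) ^ 2 / 8 + 1 / 4000) * K b y (40 * q) := by
  set w : ℂ := Complex.exp (Complex.I * ((k * (Real.pi / 20) / q : ℝ) : ℂ)) with hw
  have h1 : ∑ c ∈ range 41, pw (dg b y) q c • tau (k * c) =
      F b y (40 * q) w + (∑ i ∈ range (40 * q + 1), dg b y i • ((1 - fr q i) • om ^ (k * (i / q)) +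
        fr q i • om ^ (k * (i / q + 1)) - w ^ i)) +
      ∑ c ∈ range 41, pw (dg b y) q c • (tau (k * c) - om ^ (k * c)) := by
    have h2 := pw_sum (M := ℂ) (dg b y) q hq (fun c => om ^ (k * c))
    have h3 : F b y (40 * q) w = ∑ i ∈ range (40 * q + 1), dg b y i • w ^ i := by
      unfold F dg
      exact sum_congr rfl fun i _ => by rw [Complex.real_smul]; push_cast; rfl
    rw [h3, ← sum_add_distrib]
    simp only [smul_sub, sum_sub_distrib]
    rw [h2]
    simp only [smul_add]
    have h4 : ∑ x ∈ range (40 * q + 1), (dg b y x • w ^ x +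
        (dg b y x • (1 - fr q x) • om ^ (k * (x / q)) +
          dg b y x • fr q x • om ^ (k * (x / q + 1)) - dg b y x • w ^ x)) =
        ∑ x ∈ range (40 * q + 1), (dg b y x • (1 - fr q x) • om ^ (k * (x / q)) +
          dg b y x • fr q x • om ^ (k * (x / q + 1))) := sum_congr rfl fun i _ => by abel
    rw [h4]
    abel
  have h5 : ‖∑ i ∈ range (40 * q + 1), dg b y i • ((1 - fr q i) • om ^ (k * (i / q)) +
        fr q i • om ^ (k * (i / q + 1)) - w ^ i)‖ ≤ (k * (Real.pi / 20)) ^ 2 / 8 * K b y (40 * q) := by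
    refine (norm_sum_le _ _).trans ?_
    rw [← dg_sum, mul_sum]
    refine sum_le_sum fun i _ => ?_
    rw [norm_smul, Real.norm_eq_abs, abs_of_nonneg (dg_nonneg i), mul_comm]
    exact mul_le_mul_of_nonneg_right (term_err hq k i) (dg_nonneg i)
  have h6 : ‖∑ c ∈ range 41, pw (dg b y) q c • (tau (k * c) - om ^ (k * c))‖ ≤
      1 / 4000 * K b y (40 * q) := by
    refine (norm_sum_le _ _).trans ?_
    rw [← pw_total hq, mul_sum]
    refine sum_le_sum fun c _ => ?_
    have h0 := pw_nonneg (dg b y) dg_nonneg q c hq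
    rw [norm_smul, Real.norm_eq_abs, abs_of_nonneg h0, mul_comm]
    exact mul_le_mul_of_nonneg_right (tau_err _) h0
  rw [h1]
  refine (norm_add_le _ _).trans ((add_le_add (norm_add_le _ _) le_rfl).trans ?_)
  rw [add_mul]
  linarith

include hq in
/-- the Fourier coefficients in the form needed by the certificates -/
lemma CS_eq (k : ℕ) : (Cs (pw (dg b y) q) k ^ 2 + Ss (pw (dg b y) q) k ^ 2) / 10 ^ 12 =
    ‖∑ c ∈ range 41, pw (dg b y) q c • tau (k * c)‖ ^ 2 := by
  have h1 : ∑ c ∈ range 41, pw (dg b y) q c • tau (k * c) =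
      ((Cs (pw (dg b y) q) k / 10 ^ 6 : ℝ) : ℂ) + ((Ss (pw (dg b y) q) k / 10 ^ 6 : ℝ) : ℂ) *
        Complex.I := by
    unfold Cs Ss ws tau
    push_cast
    rw [sum_div, sum_div, sum_mul, ← sum_add_distrib]
    refine sum_congr rfl fun c _ => ?_
    rw [Complex.real_smul]
    ring
  rw [h1, ← Complex.normSq_eq_norm_sq, Complex.normSq_add_mul_I]
  ring

end

end Pool.Agent.TH265.RB
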