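import Pool.Agent.TH265.RB.Cover
import Pool.Agent.TH265.RB.Data1
import Pool.Agent.TH265.RB.Data2
import Pool.Agent.TH265.RB.Data3
import Pool.Agent.TH265.RB.Data4
import Pool.Agent.TH265.RB.Data5

/-!
# The tree of certificates
-/

set_option autoImplicit false

namespace Pool.Agent.TH265.RB

theorem covering : Cov [(924, 383), (1000, 0), (1000, 0), (1000, 0)]
    [(-924, -383), (-1000, 0), (-1000, 0), (-1000, 0)] :=
  (Cov.split _ _ 0 (-383, 924)
   (Cov.split _ _ 0 (383, 924)
    (Cov.split _ _ 0 (707, 707)
     (Cov.split _ _ 1 (0, 1000)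
      (Cov.split _ _ 1 (707, 707)
       (Cov.split _ _ 1 (924, 383)
        (Cov.leaf lf0 _ _ ok0)
        (Cov.split _ _ 2 (0, 1000)
         (Cov.split _ _ 2 (707, 707)
          (Cov.leaf lf1 _ _ ok1)
          (Cov.split _ _ 2 (383, 924)
           (Cov.leaf lf2 _ _ ok2)
           (Cov.split _ _ 3 (0, 1000)
            (Cov.split _ _ 3 (707, 707)
             (Cov.leaf lf3 _ _ ok3)
             (Cov.leaf lf4 _ _ ok4))
            (Cov.split _ _ 3 (-707, 707)
             (Cov.leaf lf5 _ _ ok5)
             (Cov.leaf lf6 _ _ ok6)))))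
         (Cov.split _ _ 2 (-707, 707)
          (Cov.leaf lf7 _ _ ok7)
          (Cov.leaf lf8 _ _ ok8))))
       (Cov.split _ _ 1 (383, 924)
        (Cov.split _ _ 2 (0, 1000)
         (Cov.split _ _ 2 (707, 707)
          (Cov.leaf lf9 _ _ ok9)
          (Cov.split _ _ 2 (383, 924)
           (Cov.split _ _ 3 (0, 1000)
            (Cov.split _ _ 3 (707, 707)
             (Cov.leaf lf10 _ _ ok10)
             (Cov.split _ _ 3 (383, 924)
              (Cov.leaf lf11 _ _ ok11)
              (Cov.split _ _ 0 (831, 556)
               (Cov.leaf lf12 _ _ ok12)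
               (Cov.split _ _ 1 (556, 831)
                (Cov.leaf lf13 _ _ ok13)
                (Cov.leaf lf14 _ _ ok14)))))
            (Cov.split _ _ 3 (-707, 707)
             (Cov.split _ _ 3 (-383, 924)
              (Cov.split _ _ 0 (831, 556)
               (Cov.leaf lf15 _ _ ok15)
               (Cov.split _ _ 1 (556, 831)
                (Cov.split _ _ 2 (556, 831)
                 (Cov.leaf lf16 _ _ ok16)
                 (Cov.leaf lf17 _ _ ok17))
                (Cov.split _ _ 2 (556, 831)
                 (Cov.leaf lf18 _ _ ok18)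
                 (Cov.leaf lf19 _ _ ok19))))
              (Cov.leaf lf20 _ _ ok20))
             (Cov.leaf lf21 _ _ ok21)))
           (Cov.split _ _ 3 (0, 1000)
            (Cov.split _ _ 3 (707, 707)
             (Cov.leaf lf22 _ _ ok22)
             (Cov.split _ _ 3 (383, 924)
              (Cov.leaf lf23 _ _ ok23)
              (Cov.leaf lf24 _ _ ok24)))
            (Cov.split _ _ 3 (-707, 707)
             (Cov.split _ _ 3 (-383, 924)
              (Cov.leaf lf25 _ _ ok25)
              (Cov.leaf lf26 _ _ ok26))
             (Cov.leaf lf27 _ _ ok27)))))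
         (Cov.split _ _ 2 (-707, 707)
          (Cov.split _ _ 2 (-383, 924)
           (Cov.split _ _ 3 (0, 1000)
            (Cov.leaf lf28 _ _ ok28)
            (Cov.split _ _ 3 (-707, 707)
             (Cov.split _ _ 3 (-383, 924)
              (Cov.leaf lf29 _ _ ok29)
              (Cov.leaf lf30 _ _ ok30))
             (Cov.split _ _ 3 (-924, 383)
              (Cov.leaf lf31 _ _ ok31)
              (Cov.leaf lf32 _ _ ok32))))
           (Cov.leaf lf33 _ _ ok33))
          (Cov.leaf lf34 _ _ ok34)))
        (Cov.split _ _ 2 (0, 1000)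
         (Cov.split _ _ 2 (707, 707)
          (Cov.leaf lf35 _ _ ok35)
          (Cov.split _ _ 2 (383, 924)
           (Cov.split _ _ 3 (0, 1000)
            (Cov.split _ _ 3 (707, 707)
             (Cov.leaf lf36 _ _ ok36)
             (Cov.leaf lf37 _ _ ok37))
            (Cov.split _ _ 3 (-707, 707)
             (Cov.split _ _ 3 (-383, 924)
              (Cov.leaf lf38 _ _ ok38)
              (Cov.leaf lf39 _ _ ok39))
             (Cov.leaf lf40 _ _ ok40)))
           (Cov.split _ _ 3 (0, 1000)
            (Cov.split _ _ 3 (707, 707)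
             (Cov.leaf lf41 _ _ ok41)
             (Cov.split _ _ 3 (383, 924)
              (Cov.leaf lf42 _ _ ok42)
              (Cov.leaf lf43 _ _ ok43)))
            (Cov.split _ _ 3 (-707, 707)
             (Cov.split _ _ 3 (-383, 924)
              (Cov.leaf lf44 _ _ ok44)
              (Cov.leaf lf45 _ _ ok45))
             (Cov.leaf lf46 _ _ ok46)))))
         (Cov.split _ _ 2 (-707, 707)
          (Cov.split _ _ 2 (-383, 924)
           (Cov.split _ _ 3 (0, 1000)
            (Cov.leaf lf47 _ _ ok47)
            (Cov.split _ _ 3 (-707, 707)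
             (Cov.leaf lf48 _ _ ok48)
             (Cov.split _ _ 3 (-924, 383)
              (Cov.leaf lf49 _ _ ok49)
              (Cov.leaf lf50 _ _ ok50))))
           (Cov.split _ _ 3 (0, 1000)
            (Cov.split _ _ 3 (707, 707)
             (Cov.leaf lf51 _ _ ok51)
             (Cov.leaf lf52 _ _ ok52))
            (Cov.split _ _ 3 (-707, 707)
             (Cov.leaf lf53 _ _ ok53)
             (Cov.leaf lf54 _ _ ok54))))
          (Cov.leaf lf55 _ _ ok55)))))
      (Cov.split _ _ 1 (-707, 707)
       (Cov.leaf lf56 _ _ ok56)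
       (Cov.leaf lf57 _ _ ok57)))
     (Cov.split _ _ 1 (0, 1000)
      (Cov.split _ _ 1 (707, 707)
       (Cov.split _ _ 1 (924, 383)
        (Cov.leaf lf58 _ _ ok58)
        (Cov.split _ _ 2 (0, 1000)
         (Cov.split _ _ 2 (707, 707)
          (Cov.leaf lf59 _ _ ok59)
          (Cov.split _ _ 2 (383, 924)
           (Cov.leaf lf60 _ _ ok60)
           (Cov.split _ _ 3 (0, 1000)
            (Cov.split _ _ 3 (707, 707)
             (Cov.leaf lf61 _ _ ok61)
             (Cov.leaf lf62 _ _ ok62))
            (Cov.split _ _ 3 (-707, 707)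
             (Cov.leaf lf63 _ _ ok63)
             (Cov.leaf lf64 _ _ ok64)))))
         (Cov.split _ _ 2 (-707, 707)
          (Cov.split _ _ 2 (-383, 924)
           (Cov.leaf lf65 _ _ ok65)
           (Cov.leaf lf66 _ _ ok66))
          (Cov.leaf lf67 _ _ ok67))))
       (Cov.split _ _ 1 (383, 924)
        (Cov.split _ _ 2 (0, 1000)
         (Cov.split _ _ 2 (707, 707)
          (Cov.leaf lf68 _ _ ok68)
          (Cov.split _ _ 2 (383, 924)
           (Cov.split _ _ 3 (0, 1000)
            (Cov.split _ _ 3 (707, 707)
             (Cov.leaf lf69 _ _ ok69)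
             (Cov.split _ _ 3 (383, 924)
              (Cov.leaf lf70 _ _ ok70)
              (Cov.split _ _ 0 (556, 831)
               (Cov.split _ _ 1 (556, 831)
                (Cov.leaf lf71 _ _ ok71)
                (Cov.leaf lf72 _ _ ok72))
               (Cov.leaf lf73 _ _ ok73))))
            (Cov.split _ _ 3 (-707, 707)
             (Cov.split _ _ 3 (-383, 924)
              (Cov.split _ _ 0 (556, 831)
               (Cov.split _ _ 1 (556, 831)
                (Cov.split _ _ 2 (556, 831)
                 (Cov.leaf lf74 _ _ ok74)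
                 (Cov.leaf lf75 _ _ ok75))
                (Cov.split _ _ 2 (556, 831)
                 (Cov.leaf lf76 _ _ ok76)
                 (Cov.leaf lf77 _ _ ok77)))
               (Cov.leaf lf78 _ _ ok78))
              (Cov.leaf lf79 _ _ ok79))
             (Cov.leaf lf80 _ _ ok80)))
           (Cov.split _ _ 3 (0, 1000)
            (Cov.split _ _ 3 (707, 707)
             (Cov.leaf lf81 _ _ ok81)
             (Cov.split _ _ 3 (383, 924)
              (Cov.leaf lf82 _ _ ok82)
              (Cov.leaf lf83 _ _ ok83)))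
            (Cov.split _ _ 3 (-707, 707)
             (Cov.split _ _ 3 (-383, 924)
              (Cov.leaf lf84 _ _ ok84)
              (Cov.leaf lf85 _ _ ok85))
             (Cov.leaf lf86 _ _ ok86)))))
         (Cov.split _ _ 2 (-707, 707)
          (Cov.split _ _ 2 (-383, 924)
           (Cov.split _ _ 3 (0, 1000)
            (Cov.split _ _ 3 (707, 707)
             (Cov.leaf lf87 _ _ ok87)
             (Cov.leaf lf88 _ _ ok88))
            (Cov.split _ _ 3 (-707, 707)
             (Cov.leaf lf89 _ _ ok89)
             (Cov.leaf lf90 _ _ ok90)))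
           (Cov.split _ _ 3 (0, 1000)
            (Cov.leaf lf91 _ _ ok91)
            (Cov.split _ _ 3 (-707, 707)
             (Cov.leaf lf92 _ _ ok92)
             (Cov.leaf lf93 _ _ ok93))))
          (Cov.leaf lf94 _ _ ok94)))
        (Cov.split _ _ 2 (0, 1000)
         (Cov.split _ _ 2 (707, 707)
          (Cov.leaf lf95 _ _ ok95)
          (Cov.split _ _ 2 (383, 924)
           (Cov.split _ _ 3 (0, 1000)
            (Cov.split _ _ 3 (707, 707)
             (Cov.leaf lf96 _ _ ok96)
             (Cov.leaf lf97 _ _ ok97))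
            (Cov.split _ _ 3 (-707, 707)
             (Cov.split _ _ 3 (-383, 924)
              (Cov.leaf lf98 _ _ ok98)
              (Cov.leaf lf99 _ _ ok99))
             (Cov.leaf lf100 _ _ ok100)))
           (Cov.split _ _ 3 (0, 1000)
            (Cov.split _ _ 3 (707, 707)
             (Cov.leaf lf101 _ _ ok101)
             (Cov.leaf lf102 _ _ ok102))
            (Cov.split _ _ 3 (-707, 707)
             (Cov.split _ _ 3 (-383, 924)
              (Cov.leaf lf103 _ _ ok103)
              (Cov.leaf lf104 _ _ ok104))
             (Cov.leaf lf105 _ _ ok105)))))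
         (Cov.split _ _ 2 (-707, 707)
          (Cov.split _ _ 2 (-383, 924)
           (Cov.split _ _ 3 (0, 1000)
            (Cov.leaf lf106 _ _ ok106)
            (Cov.split _ _ 3 (-707, 707)
             (Cov.split _ _ 3 (-383, 924)
              (Cov.leaf lf107 _ _ ok107)
              (Cov.leaf lf108 _ _ ok108))
             (Cov.split _ _ 3 (-924, 383)
              (Cov.leaf lf109 _ _ ok109)
              (Cov.leaf lf110 _ _ ok110))))
           (Cov.split _ _ 3 (0, 1000)
            (Cov.split _ _ 3 (707, 707)
             (Cov.leaf lf111 _ _ ok111)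
             (Cov.leaf lf112 _ _ ok112))
            (Cov.split _ _ 3 (-707, 707)
             (Cov.leaf lf113 _ _ ok113)
             (Cov.leaf lf114 _ _ ok114))))
          (Cov.leaf lf115 _ _ ok115)))))
      (Cov.split _ _ 1 (-707, 707)
       (Cov.split _ _ 1 (-383, 924)
        (Cov.split _ _ 2 (0, 1000)
         (Cov.split _ _ 2 (707, 707)
          (Cov.leaf lf116 _ _ ok116)
          (Cov.leaf lf117 _ _ ok117))
         (Cov.split _ _ 2 (-707, 707)
          (Cov.leaf lf118 _ _ ok118)
          (Cov.leaf lf119 _ _ ok119)))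
        (Cov.leaf lf120 _ _ ok120))
       (Cov.leaf lf121 _ _ ok121))))
    (Cov.leaf lf122 _ _ ok122))
   (Cov.split _ _ 0 (-924, 383)
    (Cov.leaf lf123 _ _ ok123)
    (Cov.leaf lf124 _ _ ok124)))

end Pool.Agent.TH265.RB
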