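import Pool.Agent.TH265.RB.Link
import Pool.Agent.TH265.RB.Tree

/-!
# The main inequality
-/

set_option autoImplicit false
set_option linter.unusedSectionVars false

open Finset

namespace Pool.Agent.TH265.RB

open Pool.Agent.H394R2.Ones Pool.Agent.H820R3.DG

lemma delta_le (k : ℕ) (hk : k < 6) :
    (3338 / 10000 + (((k + 1 : ℕ) : ℝ) * (Real.pi / 20)) ^ 2 / 8 + 1 / 4000) ^ 2 ≤
      1 - ((cW.getD k 0 : ℤ) : ℝ) / 10 ^ 6 := by
  have h1 := Real.pi_lt_d6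
  have h2 := Real.pi_pos
  have h3 : Real.pi ^ 2 ≤ 3.141593 ^ 2 := by gcongr
  have h4 : (3338 / 10000 + (((k + 1 : ℕ) : ℝ) * (Real.pi / 20)) ^ 2 / 8 + 1 / 4000) ≤
      3338 / 10000 + ((k + 1 : ℕ) : ℝ) ^ 2 * 3.141593 ^ 2 / 3200 + 1 / 4000 := by
    have : (((k + 1 : ℕ) : ℝ) * (Real.pi / 20)) ^ 2 / 8 = ((k + 1 : ℕ) : ℝ) ^ 2 * Real.pi ^ 2 / 3200 := by
      ring
    rw [this]
    gcongr
  have h5 := pow_le_pow_left₀ (by positivity) h4 2
  refine h5.trans ?_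
  clear h5 h4
  interval_cases k <;> norm_num [cW]

section
variable {b : ℕ} {y : ℝ} (hb : 2 ≤ b) (hy0 : 0 < y) (hy1 : y < 1) (hirr : Irrational y)
  {τ D : ℝ} {q : ℕ} (hq : 0 < q) {d : ℕ → ℝ} (hd0 : ∀ m, 0 ≤ d m) (hd : ∀ m, τ - d m ≤ T b y m)
  (hD : ∑ m ∈ range (40 * q), d m ≤ D)

include hb hy0 hy1 hirr hq hd0 hd hD in
/-- main inequality -/
theorem main6 (hτ : 0 ≤ τ) (hK : 0 < (K b y (40 * q) : ℝ))
    (hM : (K b y (40 * q) : ℝ) ^ 2 ≤ 11253 / 10000 * (((b : ℝ) - 1) * τ * (40 * q)))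
    (hE1 : 2 * ((b : ℝ) - 1) * D + (38 * b + 2) * (K b y (40 * q) + 1) ≤
      7 / 10 ^ 5 * (K b y (40 * q) : ℝ) ^ 2)
    (hE2 : ((b : ℝ) - 1) * (262144 * D) + 40 * b * 262144 * (K b y (40 * q) + 1) ≤
      29 * (K b y (40 * q) : ℝ) ^ 2) : False := by
  have hbR : (2 : ℝ) ≤ b := by exact_mod_cast hb
  have hqR : (1 : ℝ) ≤ q := by exact_mod_cast hq
  set Kn : ℝ := (K b y (40 * q) : ℝ) with hKn
  have hws : (ws (pw (dg b y) q) fun _ => 1) = Kn := by
    unfold ws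
    simp only [mul_one]
    exact pw_total hq
  have hsys : Sys (pw (dg b y) q) := by
    refine ⟨fun c => pw_nonneg _ dg_nonneg q c hq, by rw [hws]; exact hK, ?_, ?_⟩
    · intro k hk
      rw [CS_eq hq, hws]
      have h1 := link (b := b) (y := y) hq (k + 1)
      have hk1 : (1 : ℝ) ≤ ((k + 1 : ℕ) : ℝ) := by exact_mod_cast (by omega : 1 ≤ k + 1)
      have hk6 : ((k + 1 : ℕ) : ℝ) ≤ 6 := by exact_mod_cast (by omega : k + 1 ≤ 6)
      have hpi := Real.pi_pos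
      have hpi2 := Real.pi_lt_d2
      have h2 := F_bound6 hb hy0 hy1 hirr hd0 hd hD (n := 40 * q)
        (θ := ((k + 1 : ℕ) : ℝ) * (Real.pi / 20) / q) (by positivity) (by
          rw [div_lt_iff₀ (by linarith)]
          nlinarith) ⟨k + 1, by push_cast; field_simp; ring⟩ (by
          have : ((k + 1 : ℕ) : ℝ) * (Real.pi / 20) / q * ((40 * q : ℕ) : ℝ) =
              ((k + 1 : ℕ) : ℝ) * (2 * Real.pi) := by push_cast; field_simp; ring
          rw [this]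
          nlinarith) (by positivity)
      have h3 : Er6 b y τ D (40 * q) ≤ (3338 / 10000 * Kn) ^ 2 := by
        unfold Er6
        rw [← hKn]
        push_cast
        nlinarith
      have h4 : ‖F b y (40 * q) (Complex.exp (Complex.I *
          ((((k + 1 : ℕ) : ℝ) * (Real.pi / 20) / q : ℝ) : ℂ)))‖ ≤ 3338 / 10000 * Kn :=
        le_of_sq_le_sq (h2.trans h3) (by positivity)
      have h5 : ‖∑ c ∈ range 41, pw (dg b y) q c • tau ((k + 1) * c)‖ ≤
          (3338 / 10000 + (((k + 1 : ℕ) : ℝ) * (Real.pi / 20)) ^ 2 / 8 + 1 / 4000) * Kn := by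
        refine h1.trans ?_
        rw [← hKn]
        nlinarith
      calc ‖∑ c ∈ range 41, pw (dg b y) q c • tau ((k + 1) * c)‖ ^ 2 ≤
            ((3338 / 10000 + (((k + 1 : ℕ) : ℝ) * (Real.pi / 20)) ^ 2 / 8 + 1 / 4000) * Kn) ^ 2 :=
            pow_le_pow_left₀ (norm_nonneg _) h5 2
        _ = (3338 / 10000 + (((k + 1 : ℕ) : ℝ) * (Real.pi / 20)) ^ 2 / 8 + 1 / 4000) ^ 2 * Kn ^ 2 := by
            ring
        _ ≤ _ := mul_le_mul_of_nonneg_right (delta_le k hk) (sq_nonneg _)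
    · intro f hf0 hf1 hf2 hps
      rw [hws]
      have h1 := cover_ge hb hy0 hy1 hirr hq hd0 hd hD hτ f hf0 hf1 hf2 hps
      refine le_trans ?_ h1
      have hP : (0 : ℝ) ≤ ((psi f 0 + 2 * ∑ s ∈ range 39, psi f (s + 1) : ℤ) : ℝ) := by
        have h2 : (0 : ℤ) ≤ psi f 0 + 2 * ∑ s ∈ range 39, psi f (s + 1) := by
          have h3 := psi_nonneg f hf0 hf2 hps 0
          have h4 : (0 : ℤ) ≤ ∑ s ∈ range 39, psi f (s + 1) :=
            sum_nonneg fun s _ => psi_nonneg f hf0 hf2 hps _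
          linarith
        exact_mod_cast h2
      set P : ℝ := ((psi f 0 + 2 * ∑ s ∈ range 39, psi f (s + 1) : ℤ) : ℝ) with hPd
      have h5 := mul_le_mul_of_nonneg_left hM hP
      rw [← hKn]
      linarith
  refine cov_false _ _ covering _ hsys ?_
  intro k hk
  have key : ∀ (p : ℕ → ℝ) (u v : ℤ) (j : ℕ), Xs p (u, v) j * Xs p (-u, -v) j ≤ 0 := by
    intro p u v j
    have : Xs p (-u, -v) j = -Xs p (u, v) j := by unfold Xs; push_cast; ring
    rw [this]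
    nlinarith [sq_nonneg (Xs p (u, v) j)]
  interval_cases k
  · exact key _ 924 383 _
  · exact key _ 1000 0 _
  · exact key _ 1000 0 _
  · exact key _ 1000 0 _

end

end Pool.Agent.TH265.RB
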