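import Pool.Agent.TH265.RB.Main

/-!
# Digit sums of quadratic irrationals
-/

set_option autoImplicit false
set_option linter.unusedSectionVars false

open Finset

namespace Pool.Agent.TH265.RB

open Pool.Agent.H394R2.Ones Pool.Agent.H820R3.DG

section
variable {b : ℕ} {y : ℝ}

lemma dd_sum (hb : 2 ≤ b) (hy0 : 0 < y) (hy1 : y < 1) (n : ℕ) {τ δ Bq C1 : ℝ}
    (hτ0 : 0 ≤ τ) (hB0 : 0 ≤ Bq)
    (hC1 : (((range n).filter (fun m => T b y m ≤ Bq * ep b y m)).card : ℝ) ≤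
      C1 * (K b y n + 1) + δ * n) :
    ∑ m ∈ range n, dd b y τ Bq m ≤
      (Bq + 2 * τ + τ * C1 + τ) * (K b y n + 1) + τ * δ * n := by
  have hK : (0 : ℝ) ≤ K b y n := Nat.cast_nonneg _
  unfold dd
  rw [sum_add_distrib, sum_add_distrib, sum_add_distrib, ← mul_sum, ← mul_sum, ← mul_sum,
    sum_add_distrib]
  have h1 := ep_sum (b := b) hb hy0 hy1 n
  have h2 : (∑ m ∈ range n, (x b y m : ℝ)) ≤ K b y n := by
    unfold K
    exact_mod_cast sum_le_sum_of_subset (range_mono (Nat.le_succ n))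
  have h3 : (∑ m ∈ range n, (exc b y m : ℝ)) ≤ K b y n := by
    exact_mod_cast exc_sum b y n
  have h4 : (∑ m ∈ range n, (if T b y m ≤ Bq * ep b y m then (1 : ℝ) else 0)) ≤
      C1 * (K b y n + 1) + δ * n := by
    have h5 := hC1
    rw [card_filter] at h5
    push_cast at h5
    exact h5
  have h5 := few_sum 0 n τ hτ0
  rw [Nat.cast_zero, zero_add, mul_one] at h5
  have h6 := mul_le_mul_of_nonneg_left h1 hB0
  have h7 := mul_le_mul_of_nonneg_left (add_le_add h2 h3) hτ0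
  have h8 := mul_le_mul_of_nonneg_left h4 hτ0
  have h9 : 0 ≤ τ * K b y n := mul_nonneg hτ0 hK
  have e : (Bq + 2 * τ + τ * C1 + τ) * ((K b y n : ℝ) + 1) = Bq * (K b y n + 1) +
      2 * (τ * K b y n) + 2 * τ + τ * (C1 * (K b y n + 1)) + τ * K b y n + τ := by ring
  rw [e]
  linarith

/-- digit sums of quadratic irrationals in `(0, 1)` -/
theorem quad_main6 (hb : 2 ≤ b) (hy0 : 0 < y) (hy1 : y < 1) (hirr : Irrational y) {A B C : ℤ}
    (hA : 0 < A) (hq : (A : ℝ) * y ^ 2 + B * y + C = 0) :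
    ∃ n0 : ℕ, ∀ n : ℕ, n0 ≤ n →
      9 / 8 * (((b : ℝ) - 1) * ((Int.gcd b (2 * A) : ℕ) : ℝ) / A * n) ≤ (K b y n : ℝ) ^ 2 := by
  have hbR : (2 : ℝ) ≤ b := by exact_mod_cast hb
  have hAR : (1 : ℝ) ≤ A := by exact_mod_cast hA
  have halg : IsAlgebraic ℚ y := by
    refine ⟨Polynomial.C (A : ℚ) * Polynomial.X ^ 2 + Polynomial.C (B : ℚ) * Polynomial.X +
      Polynomial.C (C : ℚ), ?_, ?_⟩
    · intro h
      have h1 := congrArg (fun p => Polynomial.coeff p 2) h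
      simp only [Polynomial.coeff_add, Polynomial.coeff_C_mul, Polynomial.coeff_X_pow,
        Polynomial.coeff_X, Polynomial.coeff_C, Polynomial.coeff_zero] at h1
      norm_num at h1
      omega
    · simp only [map_add, map_mul, map_pow, Polynomial.aeval_X, Polynomial.aeval_C]
      simpa using hq
  set g : ℕ := Int.gcd b (2 * A) with hg
  have hg0 : 0 < g := by
    rw [hg]
    apply Int.gcd_pos_of_ne_zero_left
    omega
  have hgR : (1 : ℝ) ≤ g := by exact_mod_cast hg0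
  set τ : ℝ := (g : ℝ) / A with hτ
  have hτ0 : 0 < τ := by positivity
  set κ : ℝ := 7 * Real.sqrt (((b : ℝ) - 1) * g / (48 * A)) with hκ
  have hpos : 0 < ((b : ℝ) - 1) * g / (48 * A) := by
    apply div_pos _ (by linarith)
    apply mul_pos (by linarith) (by linarith)
  have hκ0 : 0 < κ := by
    have := Real.sqrt_pos.2 hpos
    positivity
  have hκ2 : κ ^ 2 = 49 * (((b : ℝ) - 1) * τ) / 48 := by
    rw [hκ, mul_pow, Real.sq_sqrt hpos.le, hτ]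
    field_simp
    ring
  set β : ℝ := ((b : ℝ) - 1) * τ with hβ
  have hβ0 : 0 < β := mul_pos (by linarith) hτ0
  obtain ⟨n1, hn1⟩ := quad_main hb hy0 hy1 hirr hA hq (κ / 2) (by positivity)
  set δ : ℝ := 1 / 10 ^ 6 with hδ
  obtain ⟨C1, hC10, hC1⟩ := bad_count hb hy0 hy1 halg hirr |(B : ℝ)| δ (by rw [hδ]; norm_num)
    (by rw [hδ]; norm_num)
  have hB0 : 0 ≤ |(B : ℝ)| := abs_nonneg _
  set C2 : ℝ := |(B : ℝ)| + 2 * τ + τ * C1 + τ with hC2
  have hC20 : 0 ≤ C2 := by positivity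
  set C5 : ℝ := 262146 * (((b : ℝ) - 1) * C2) + (38 * b + 2) + 40 * b * 262144 with hC5
  have hC50 : 0 ≤ C5 := by
    have h1 : 0 ≤ ((b : ℝ) - 1) * C2 := mul_nonneg (by linarith) hC20
    positivity
  obtain ⟨n2, hn2⟩ := exists_nat_ge ((4 * (2 * 10 ^ 5 * C5 + 1) ^ 2) / β)
  refine ⟨n1 + n2 + 200000 + 40, fun n hn => ?_⟩
  by_contra hcon
  push Not at hcon
  set q : ℕ := n / 40 with hqd
  have hq40 : 40 * q ≤ n := Nat.mul_div_le n 40
  have hq41 : n < 40 * q + 40 := by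
    have := Nat.lt_mul_div_succ n (show 0 < 40 by norm_num)
    rw [← hqd] at this
    omega
  have hq0 : 0 < q := by omega
  have hnR : (n : ℝ) < 40 * q + 40 := by exact_mod_cast hq41
  have hn200 : (200000 : ℝ) ≤ 40 * q := by exact_mod_cast (by omega : 200000 ≤ 40 * q)
  have hn2q : (n2 : ℝ) ≤ 40 * q := by exact_mod_cast (by omega : n2 ≤ 40 * q)
  have hKmono : (K b y (40 * q) : ℝ) ≤ K b y n := by exact_mod_cast K_mono hq40
  set Kq : ℝ := (K b y (40 * q) : ℝ) with hKq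
  have hKq0 : 0 ≤ Kq := Nat.cast_nonneg _
  -- lower bound for `Kq`
  have h1 := hn1 (40 * q) (by omega)
  have e1 : 7 * Real.sqrt (((b : ℝ) - 1) * g / (48 * A)) - κ / 2 = κ / 2 := by rw [← hκ]; ring
  rw [e1, ← hKq] at h1
  have hs0 := Real.sqrt_nonneg (((40 * q : ℕ) : ℝ))
  have h2 : κ ^ 2 / 4 * (40 * q) ≤ Kq ^ 2 := by
    have h3 := pow_le_pow_left₀ (by positivity) h1 2
    rw [mul_pow, Real.sq_sqrt (Nat.cast_nonneg _)] at h3
    push_cast at h3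
    linarith
  have h3 : β * (40 * q) ≤ 4 * Kq ^ 2 := by
    rw [hκ2] at h2
    have : 0 ≤ β * (40 * q) := by positivity
    linarith
  have h4 : 2 * 10 ^ 5 * C5 + 1 ≤ Kq := by
    rw [div_le_iff₀ hβ0] at hn2
    have h5 : (2 * 10 ^ 5 * C5 + 1) ^ 2 ≤ Kq ^ 2 := by
      have h6 : (n2 : ℝ) * β ≤ β * (40 * q) := by
        rw [mul_comm]; exact mul_le_mul_of_nonneg_left hn2q hβ0.le
      linarith
    exact le_of_sq_le_sq h5 hKq0
  have hKq1 : 1 ≤ Kq := by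
    have : 0 ≤ 2 * 10 ^ 5 * C5 := by positivity
    linarith
  -- the deficiency
  have hC1' := hC1 (40 * q)
  have hD := dd_sum hb hy0 hy1 (40 * q) hτ0.le hB0 hC1'
  rw [← hKq, ← hC2] at hD
  push_cast at hD
  set D : ℝ := C2 * (Kq + 1) + τ * δ * (40 * q) with hDd
  have h5 : C5 * (Kq + 1) ≤ 1 / 10 ^ 5 * Kq ^ 2 := by
    have h6 : C5 * (Kq + 1) ≤ C5 * (2 * Kq) := mul_le_mul_of_nonneg_left (by linarith) hC50
    have h7 : 2 * 10 ^ 5 * C5 * Kq ≤ Kq * Kq := mul_le_mul_of_nonneg_right (by linarith) hKq0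
    linarith
  have h6 : ((b : ℝ) - 1) * D = ((b : ℝ) - 1) * C2 * (Kq + 1) + δ * (β * (40 * q)) := by
    rw [hDd, hβ]; ring
  have h7 : δ * (β * (40 * q)) ≤ 4 / 10 ^ 6 * Kq ^ 2 := by
    have := mul_le_mul_of_nonneg_left h3 (by rw [hδ]; norm_num : 0 ≤ δ)
    rw [hδ] at this ⊢
    linarith
  have h8 : 0 ≤ ((b : ℝ) - 1) * C2 * (Kq + 1) :=
    mul_nonneg (mul_nonneg (by linarith) hC20) (by linarith)
  have h9 : C5 * (Kq + 1) = 262146 * (((b : ℝ) - 1) * C2 * (Kq + 1)) + (38 * b + 2) * (Kq + 1) +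
      40 * b * 262144 * (Kq + 1) := by rw [hC5]; ring
  have h10 : 0 ≤ (38 * (b : ℝ) + 2) * (Kq + 1) := by positivity
  have h11 : 0 ≤ 40 * (b : ℝ) * 262144 * (Kq + 1) := by positivity
  have hKsq : 0 ≤ Kq ^ 2 := sq_nonneg _
  refine main6 hb hy0 hy1 hirr hq0 (fun m => dd_nonneg hy0 hτ0.le hB0 m)
    (fun m => T_lower' hb hy0 hy1 hirr hA hq m) hD hτ0.le (by linarith) ?_ ?_ ?_
  · -- the size of `K`
    rw [← hKq]
    have h12 : Kq ^ 2 ≤ (K b y n : ℝ) ^ 2 := pow_le_pow_left₀ hKq0 hKmono 2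
    have h13 : 9 / 8 * (((b : ℝ) - 1) * (g : ℝ) / A * n) = 9 / 8 * (β * n) := by
      rw [hβ, hτ]; ring
    rw [h13] at hcon
    have h14 : β * n ≤ β * (40 * q + 40) := mul_le_mul_of_nonneg_left hnR.le hβ0.le
    have h15 : β * 200000 ≤ β * (40 * q) := mul_le_mul_of_nonneg_left hn200 hβ0.le
    have h16 : ((b : ℝ) - 1) * τ * (40 * q) = β * (40 * q) := by rw [hβ]
    rw [h16]
    linarith
  · rw [← hKq]
    have h17 : 2 * ((b : ℝ) - 1) * D = 2 * (((b : ℝ) - 1) * D) := by ring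
    rw [h17, h6]
    rw [h9] at h5
    generalize ((b : ℝ) - 1) * C2 * (Kq + 1) = X at *
    generalize δ * (β * (40 * (q : ℝ))) = Y at *
    generalize (38 * (b : ℝ) + 2) * (Kq + 1) = Z at *
    generalize 40 * (b : ℝ) * 262144 * (Kq + 1) = W at *
    linarith only [h5, h7, h8, h10, h11, hKsq]
  · rw [← hKq]
    have h17 : ((b : ℝ) - 1) * (262144 * D) = 262144 * (((b : ℝ) - 1) * D) := by ring
    rw [h17, h6]
    rw [h9] at h5
    generalize ((b : ℝ) - 1) * C2 * (Kq + 1) = X at *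
    generalize δ * (β * (40 * (q : ℝ))) = Y at *
    generalize (38 * (b : ℝ) + 2) * (Kq + 1) = Z at *
    generalize 40 * (b : ℝ) * 262144 * (Kq + 1) = W at *
    linarith only [h5, h7, h8, h10, h11, hKsq]

end

/-- digit sums of real quadratic irrationals -/
theorem quad_real6 {b : ℕ} (hb : 2 ≤ b) {A B C : ℤ} (hA : 0 < A) {ξ : ℝ} (hirr : Irrational ξ)
    (hq : (A : ℝ) * ξ ^ 2 + B * ξ + C = 0) :
    ∃ n0 : ℕ, ∀ n : ℕ, n0 ≤ n →
      9 / 8 * (((b : ℝ) - 1) * ((Int.gcd b (2 * A) : ℕ) : ℝ) / A * n) ≤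
        ((∑ k ∈ range n, ⌊ξ * (b : ℝ) ^ (k + 1)⌋ % (b : ℤ) : ℤ) : ℝ) ^ 2 := by
  set y : ℝ := Int.fract ξ with hy
  have hξ : ξ = ⌊ξ⌋ + y := (Int.floor_add_fract ξ).symm
  have hyirr : Irrational y := by
    have : y = ξ - (⌊ξ⌋ : ℤ) := rfl
    rw [this]
    exact hirr.sub_intCast _
  have hy0 : 0 < y := lt_of_le_of_ne (Int.fract_nonneg ξ) (Ne.symm hyirr.ne_zero)
  have hy1 : y < 1 := Int.fract_lt_one ξ
  have hq' : (A : ℝ) * y ^ 2 + ((B + 2 * A * ⌊ξ⌋ : ℤ) : ℝ) * y +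
      ((C + B * ⌊ξ⌋ + A * ⌊ξ⌋ ^ 2 : ℤ) : ℝ) = 0 := by
    have h1 : (A : ℝ) * (⌊ξ⌋ + y) ^ 2 + B * (⌊ξ⌋ + y) + C = 0 := by rw [← hξ]; exact hq
    push_cast
    linarith
  obtain ⟨n0, hn0⟩ := quad_main6 hb hy0 hy1 hyirr hA hq'
  refine ⟨n0, fun n hn => (hn0 n hn).trans (le_of_eq ?_)⟩
  have hdig : ∀ k : ℕ, ⌊ξ * (b : ℝ) ^ (k + 1)⌋ % (b : ℤ) = (x b y (k + 1) : ℤ) := by
    intro k
    have h1 : ξ * (b : ℝ) ^ (k + 1) = ((⌊ξ⌋ * (b : ℤ) ^ (k + 1) : ℤ) : ℝ) +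
        y * (b : ℝ) ^ (k + 1) := by
      nth_rewrite 1 [hξ]
      push_cast
      ring
    rw [h1, Int.floor_intCast_add]
    unfold x Pool.Agent.H394R2.Ones.B
    push_cast
    rw [Int.natCast_floor_eq_floor (by positivity)]
    rw [show ⌊ξ⌋ * (b : ℤ) ^ (k + 1) + ⌊y * (b : ℝ) ^ (k + 1)⌋ =
      ⌊y * (b : ℝ) ^ (k + 1)⌋ + (b : ℤ) * (⌊ξ⌋ * (b : ℤ) ^ k) by ring, Int.add_mul_emod_self_left]
  simp only [hdig]
  unfold K
  rw [sum_range_succ']
  rw [x_zero hy0 hy1, add_zero]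
  push_cast
  rfl

end Pool.Agent.TH265.RB
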