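import Pool.Agent.TH265.RB.Check

/-!
# Soundness of the checker
-/

set_option autoImplicit false

open Finset

namespace Pool.Agent.TH265.RB

lemma dot_row (W V : List ℤ) (lo hi : List (ℤ × ℤ)) (c d : ℕ) (l l' : List ℤ) :
    dot (rowA W V lo hi c l) (rowB lo hi d l') = K0 W +
      ∑ k ∈ range 6, 10 ^ 6 * W.getD k 0 * ((tb ((k + 1) * c)).1 * (tb ((k + 1) * d)).1 +
        (tb ((k + 1) * c)).2 * (tb ((k + 1) * d)).2) +
      ∑ k ∈ range 4, V.getD k 0 * (X (lo.getD k (0, 0)) (k + 1) c * X (hi.getD k (0, 0)) (k + 1) d +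
        X (hi.getD k (0, 0)) (k + 1) c * X (lo.getD k (0, 0)) (k + 1) d) -
      10 ^ 15 * dot l l' := by
  unfold rowA rowB
  rw [dot_cons, dot_pairs, dot_pairs, dot_map]
  have e1 : ∀ k, 10 ^ 6 * W.getD k 0 * ((tb ((k + 1) * c)).1 * (tb ((k + 1) * d)).1 +
        (tb ((k + 1) * c)).2 * (tb ((k + 1) * d)).2) =
      (10 ^ 6 * W.getD k 0 * (tb ((k + 1) * c)).1) * (tb ((k + 1) * d)).1 +
        (10 ^ 6 * W.getD k 0 * (tb ((k + 1) * c)).2) * (tb ((k + 1) * d)).2 := fun k => by ring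
  have e2 : ∀ k, V.getD k 0 *
        (X (lo.getD k (0, 0)) (k + 1) c * X (hi.getD k (0, 0)) (k + 1) d +
        X (hi.getD k (0, 0)) (k + 1) c * X (lo.getD k (0, 0)) (k + 1) d) =
      (V.getD k 0 * X (lo.getD k (0, 0)) (k + 1) c) * X (hi.getD k (0, 0)) (k + 1) d +
        (V.getD k 0 * X (hi.getD k (0, 0)) (k + 1) c) * X (lo.getD k (0, 0)) (k + 1) d :=
    fun k => by ring
  simp only [e1, e2]
  ring

/-- weighted sums -/
noncomputable def ws (p : ℕ → ℝ) (f : ℕ → ℝ) : ℝ := ∑ c ∈ range 41, p c * f c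

lemma bil (p f g : ℕ → ℝ) :
    ∑ c ∈ range 41, ∑ d ∈ range 41, p c * p d * (f c * g d) = ws p f * ws p g := by
  unfold ws
  rw [sum_mul_sum]
  exact sum_congr rfl fun c _ => sum_congr rfl fun d _ => by ring

lemma bil_const (p : ℕ → ℝ) (t : ℝ) :
    ∑ c ∈ range 41, ∑ d ∈ range 41, p c * p d * t = t * (ws p fun _ => 1) ^ 2 := by
  have h := bil p (fun _ => 1) (fun _ => 1)
  simp only [mul_one] at h
  simp only [← sum_mul]
  rw [h]
  ring

/-- real parts of the Fourier coefficients -/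
noncomputable def Cs (p : ℕ → ℝ) (k : ℕ) : ℝ := ws p fun c => ((tb (k * c)).1 : ℝ)

/-- imaginary parts of the Fourier coefficients -/
noncomputable def Ss (p : ℕ → ℝ) (k : ℕ) : ℝ := ws p fun c => ((tb (k * c)).2 : ℝ)

/-- linear forms of the Fourier coefficients -/
noncomputable def Xs (p : ℕ → ℝ) (v : ℤ × ℤ) (k : ℕ) : ℝ := v.1 * Ss p k - v.2 * Cs p k

lemma ws_X (p : ℕ → ℝ) (v : ℤ × ℤ) (k : ℕ) : (ws p fun c => (X v k c : ℝ)) = Xs p v k := by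
  unfold Xs Ss Cs ws X
  rw [mul_sum, mul_sum, ← sum_sub_distrib]
  refine sum_congr rfl fun c _ => ?_
  push_cast
  ring

/-- the inequality given by a certificate -/
theorem leaf_sound (x : Leaf) (lo hi : List (ℤ × ℤ)) (h : leafCheck x lo hi = true)
    (p : ℕ → ℝ) (hp : ∀ c, 0 ≤ p c)
    (hsec : ∀ k < 4, Xs p (lo.getD k (0, 0)) (k + 1) * Xs p (hi.getD k (0, 0)) (k + 1) ≤ 0) :
    ∑ c ∈ range 41, ∑ d ∈ range 41, p c * p d * ((x.f (c + d) : ℤ) : ℝ) ≤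
      (10 ^ 5 - ∑ k ∈ range 6, ((x.W.getD k 0 : ℤ) : ℝ)) * (ws p fun _ => 1) ^ 2 +
        ∑ k ∈ range 6, ((x.W.getD k 0 : ℤ) : ℝ) *
          ((Cs p (k + 1) ^ 2 + Ss p (k + 1) ^ 2) / 10 ^ 12) := by
  unfold leafCheck at h
  simp only [Bool.and_eq_true, decide_eq_true_eq] at h
  obtain ⟨⟨⟨⟨⟨hL, hW⟩, hV⟩, -⟩, -⟩, hM⟩ := h
  have hlen : x.ls.length = 41 := by unfold Leaf.ls; rw [List.length_map, hL]
  have hs := checkMat_sound _ _ _ _ _ _ hM
  rw [mkA_length, mkB_length, hlen] at hs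
  have h1 : ∀ c ∈ range 41, ∀ d ∈ range 41, 10 ^ 18 * ((x.f (c + d) : ℤ) : ℝ) ≤
      ((K0 x.W +
      ∑ k ∈ range 6, 10 ^ 6 * x.W.getD k 0 * ((tb ((k + 1) * c)).1 * (tb ((k + 1) * d)).1 +
        (tb ((k + 1) * c)).2 * (tb ((k + 1) * d)).2) +
      ∑ k ∈ range 4, x.V.getD k 0 *
        (X (lo.getD k (0, 0)) (k + 1) c * X (hi.getD k (0, 0)) (k + 1) d +
        X (hi.getD k (0, 0)) (k + 1) c * X (lo.getD k (0, 0)) (k + 1) d) -
      10 ^ 15 * dot (x.ls.getD c []) (x.ls.getD d []) : ℤ) : ℝ) := by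
    intro c hc d hd
    have h2 := hs c (mem_range.1 hc) d (mem_range.1 hd)
    rw [mkA_getD _ _ _ _ _ _ _ (by rw [hlen]; exact mem_range.1 hc),
      mkB_getD _ _ _ _ _ (by rw [hlen]; exact mem_range.1 hd), zero_add, zero_add, dot_row] at h2
    have h3 : (((x.ph.map (fun z => 10 ^ 18 * z)).getD (c + d) 0 : ℕ) : ℤ) =
        10 ^ 18 * x.f (c + d) := by
      unfold Leaf.f
      have : (x.ph.map (fun z => 10 ^ 18 * z)).getD (c + d) 0 = 10 ^ 18 * x.ph.getD (c + d) 0 := by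
        have := List.getD_map (l := x.ph) (n := c + d) (d := 0) (fun z => 10 ^ 18 * z)
        simpa using this
      rw [this]
      push_cast
      rfl
    rw [h3] at h2
    exact_mod_cast h2
  have h2 : ∑ c ∈ range 41, ∑ d ∈ range 41, p c * p d * (10 ^ 18 * ((x.f (c + d) : ℤ) : ℝ)) ≤
      ∑ c ∈ range 41, ∑ d ∈ range 41, p c * p d * ((K0 x.W +
      ∑ k ∈ range 6, 10 ^ 6 * x.W.getD k 0 * ((tb ((k + 1) * c)).1 * (tb ((k + 1) * d)).1 +
        (tb ((k + 1) * c)).2 * (tb ((k + 1) * d)).2) +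
      ∑ k ∈ range 4, x.V.getD k 0 *
        (X (lo.getD k (0, 0)) (k + 1) c * X (hi.getD k (0, 0)) (k + 1) d +
        X (hi.getD k (0, 0)) (k + 1) c * X (lo.getD k (0, 0)) (k + 1) d) -
      10 ^ 15 * dot (x.ls.getD c []) (x.ls.getD d []) : ℤ) : ℝ) := by
    refine sum_le_sum fun c hc => sum_le_sum fun d hd => ?_
    exact mul_le_mul_of_nonneg_left (h1 c hc d hd) (mul_nonneg (hp c) (hp d))
  have h3 : ∑ c ∈ range 41, ∑ d ∈ range 41, p c * p d * ((K0 x.W +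
      ∑ k ∈ range 6, 10 ^ 6 * x.W.getD k 0 * ((tb ((k + 1) * c)).1 * (tb ((k + 1) * d)).1 +
        (tb ((k + 1) * c)).2 * (tb ((k + 1) * d)).2) +
      ∑ k ∈ range 4, x.V.getD k 0 *
        (X (lo.getD k (0, 0)) (k + 1) c * X (hi.getD k (0, 0)) (k + 1) d +
        X (hi.getD k (0, 0)) (k + 1) c * X (lo.getD k (0, 0)) (k + 1) d) -
      10 ^ 15 * dot (x.ls.getD c []) (x.ls.getD d []) : ℤ) : ℝ) =
      (K0 x.W : ℝ) * (ws p fun _ => 1) ^ 2 +
      ∑ k ∈ range 6, 10 ^ 6 * ((x.W.getD k 0 : ℤ) : ℝ) * (Cs p (k + 1) ^ 2 + Ss p (k + 1) ^ 2) +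
      ∑ k ∈ range 4, ((x.V.getD k 0 : ℤ) : ℝ) *
        (2 * (Xs p (lo.getD k (0, 0)) (k + 1) * Xs p (hi.getD k (0, 0)) (k + 1))) -
      10 ^ 15 * ∑ c ∈ range 41, ∑ d ∈ range 41, p c * p d *
        ((dot (x.ls.getD c []) (x.ls.getD d []) : ℤ) : ℝ) := by
    have s1 : ∀ k, ∑ c ∈ range 41, ∑ d ∈ range 41, p c * p d *
        (10 ^ 6 * ((x.W.getD k 0 : ℤ) : ℝ) *
          (((tb ((k + 1) * c)).1 : ℝ) * ((tb ((k + 1) * d)).1 : ℝ) +
          ((tb ((k + 1) * c)).2 : ℝ) * ((tb ((k + 1) * d)).2 : ℝ))) =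
        10 ^ 6 * ((x.W.getD k 0 : ℤ) : ℝ) * (Cs p (k + 1) ^ 2 + Ss p (k + 1) ^ 2) := by
      intro k
      have b1 := bil p (fun c => ((tb ((k + 1) * c)).1 : ℝ)) (fun c => ((tb ((k + 1) * c)).1 : ℝ))
      have b2 := bil p (fun c => ((tb ((k + 1) * c)).2 : ℝ)) (fun c => ((tb ((k + 1) * c)).2 : ℝ))
      unfold Cs Ss
      rw [sq, sq, ← b1, ← b2, ← sum_add_distrib, mul_sum]
      refine sum_congr rfl fun c _ => ?_
      rw [← sum_add_distrib, mul_sum]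
      exact sum_congr rfl fun d _ => by ring
    have s2 : ∀ k, ∑ c ∈ range 41, ∑ d ∈ range 41, p c * p d *
        (((x.V.getD k 0 : ℤ) : ℝ) *
          ((X (lo.getD k (0, 0)) (k + 1) c : ℝ) * (X (hi.getD k (0, 0)) (k + 1) d : ℝ) +
          (X (hi.getD k (0, 0)) (k + 1) c : ℝ) * (X (lo.getD k (0, 0)) (k + 1) d : ℝ))) =
        ((x.V.getD k 0 : ℤ) : ℝ) *
        (2 * (Xs p (lo.getD k (0, 0)) (k + 1) * Xs p (hi.getD k (0, 0)) (k + 1))) := by
      intro k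
      have b1 := bil p (fun c => (X (lo.getD k (0, 0)) (k + 1) c : ℝ))
        (fun c => (X (hi.getD k (0, 0)) (k + 1) c : ℝ))
      have b2 := bil p (fun c => (X (hi.getD k (0, 0)) (k + 1) c : ℝ))
        (fun c => (X (lo.getD k (0, 0)) (k + 1) c : ℝ))
      rw [ws_X, ws_X] at b1 b2
      rw [two_mul]
      nth_rewrite 2 [mul_comm (Xs p (lo.getD k (0, 0)) (k + 1))]
      rw [← b1, ← b2, ← sum_add_distrib, mul_sum]
      refine sum_congr rfl fun c _ => ?_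
      rw [← sum_add_distrib, mul_sum]
      exact sum_congr rfl fun d _ => by ring
    rw [← bil_const, mul_sum]
    simp only [← s1, ← s2]
    have t1 : ∀ (n : ℕ) (F : ℕ → ℕ → ℕ → ℝ), ∑ k ∈ range n, ∑ c ∈ range 41, ∑ d ∈ range 41, F k c d =
        ∑ c ∈ range 41, ∑ d ∈ range 41, ∑ k ∈ range n, F k c d := by
      intro n F
      rw [sum_comm]
      exact sum_congr rfl fun c _ => sum_comm
    rw [t1, t1, ← sum_add_distrib, ← sum_add_distrib, ← sum_sub_distrib]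
    refine sum_congr rfl fun c _ => ?_
    rw [mul_sum, ← sum_add_distrib, ← sum_add_distrib, ← sum_sub_distrib]
    refine sum_congr rfl fun d _ => ?_
    push_cast
    rw [mul_sub, mul_add, mul_add, mul_sum, mul_sum]
    refine congrArg₂ _ (congrArg₂ _ (congrArg₂ _ ?_ ?_) ?_) ?_
    · ring
    · exact sum_congr rfl fun k _ => by ring
    · exact sum_congr rfl fun k _ => by ring
    · ring
  have h4 := dot_psd 41 p (fun c => x.ls.getD c [])
  have h5 : ∑ k ∈ range 4, ((x.V.getD k 0 : ℤ) : ℝ) *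
        (2 * (Xs p (lo.getD k (0, 0)) (k + 1) * Xs p (hi.getD k (0, 0)) (k + 1))) ≤ 0 := by
    refine sum_nonpos fun k hk => ?_
    have a1 : (0 : ℝ) ≤ ((x.V.getD k 0 : ℤ) : ℝ) := by exact_mod_cast hV k (mem_range.1 hk)
    have a2 := hsec k (mem_range.1 hk)
    exact mul_nonpos_of_nonneg_of_nonpos a1 (by linarith)
  rw [h3] at h2
  have h6 : ∑ c ∈ range 41, ∑ d ∈ range 41, p c * p d * (10 ^ 18 * ((x.f (c + d) : ℤ) : ℝ)) =
      10 ^ 18 * ∑ c ∈ range 41, ∑ d ∈ range 41, p c * p d * ((x.f (c + d) : ℤ) : ℝ) := by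
    rw [mul_sum]
    refine sum_congr rfl fun c _ => ?_
    rw [mul_sum]
    exact sum_congr rfl fun d _ => by ring
  rw [h6] at h2
  have h7 : (K0 x.W : ℝ) = 10 ^ 18 * (10 ^ 5 - ∑ k ∈ range 6, ((x.W.getD k 0 : ℤ) : ℝ)) := by
    unfold K0
    simp only [sum_range_succ, range_zero, sum_empty]
    push_cast
    ring
  have h8 : ∑ k ∈ range 6, 10 ^ 6 * ((x.W.getD k 0 : ℤ) : ℝ) *
      (Cs p (k + 1) ^ 2 + Ss p (k + 1) ^ 2) = 10 ^ 18 * ∑ k ∈ range 6, ((x.W.getD k 0 : ℤ) : ℝ) *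
          ((Cs p (k + 1) ^ 2 + Ss p (k + 1) ^ 2) / 10 ^ 12) := by
    rw [mul_sum]
    exact sum_congr rfl fun k _ => by ring
  rw [h7, h8] at h2
  have h9 : (0 : ℝ) < 10 ^ 18 := by norm_num
  nlinarith

end Pool.Agent.TH265.RB
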