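import Mathlib

/-!
# A table of the `40`-th roots of unity
-/

set_option autoImplicit false

open Finset

namespace Pool.Agent.TH265.RB

/-- the first `40`-th root of unity -/
noncomputable def om : ℂ := Complex.exp (Complex.I * (Real.pi / 20 : ℝ))

/-- `10^6` times the real and imaginary parts of the `40`-th roots of unity, rounded -/
def tab : List (ℤ × ℤ) :=
  [(1000000, 0), (987688, 156434), (951057, 309017), (891007, 453990), (809017, 587785), (707107, 707107), (587785, 809017), (453990, 891007), (309017, 951057), (156434, 987688), (0, 1000000), (-156434, 987688), (-309017, 951057), (-453990, 891007), (-587785, 809017), (-707107, 707107), (-809017, 587785), (-891007, 453990), (-951057, 309017), (-987688, 156434), (-1000000, 0), (-987688, -156434), (-951057, -309017), (-891007, -453990), (-809017, -587785), (-707107, -707107), (-587785, -809017), (-453990, -891007), (-309017, -951057), (-156434, -987688), (0, -1000000), (156434,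 -987688), (309017, -951057), (453990, -891007), (587785, -809017), (707107, -707107), (809017, -587785), (891007, -453990), (951057, -309017), (987688, -156434)]

/-- the table, periodically continued -/
def tb (j : ℕ) : ℤ × ℤ := tab.getD (j % 40) (0, 0)

/-- the approximate root of unity -/
noncomputable def tau (j : ℕ) : ℂ :=
  (((tb j).1 : ℝ) / 10 ^ 6 : ℝ) + (((tb j).2 : ℝ) / 10 ^ 6 : ℝ) * Complex.I

lemma om_norm : ‖om‖ = 1 := by
  unfold om
  rw [mul_comm]
  exact Complex.norm_exp_ofReal_mul_I _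

lemma om_pow : om ^ 40 = 1 := by
  unfold om
  rw [← Complex.exp_nat_mul, Complex.exp_eq_one_iff]
  refine ⟨1, ?_⟩
  push_cast
  ring

lemma tab_step : ∀ j < 39,
    |(tb j).1 * 987688 - (tb j).2 * 156434 - 10 ^ 6 * (tb (j + 1)).1| ≤ 2 * 10 ^ 6 ∧
    |(tb j).1 * 156434 + (tb j).2 * 987688 - 10 ^ 6 * (tb (j + 1)).2| ≤ 2 * 10 ^ 6 ∧
    |(tb j).1| + |(tb j).2| ≤ 1500000 := by
  decide +kernel

lemma norm_le_add (a b : ℝ) : ‖((a : ℝ) : ℂ) + (b : ℝ) * Complex.I‖ ≤ |a| + |b| := by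
  refine (norm_add_le _ _).trans ?_
  rw [norm_mul, Complex.norm_I, mul_one, Complex.norm_real, Complex.norm_real,
    Real.norm_eq_abs, Real.norm_eq_abs]

lemma om_one : ‖tau 1 - om‖ ≤ 1 / 10 ^ 6 := by
  have hpi1 := Real.pi_gt_d6
  have hpi2 := Real.pi_lt_d6
  set a : ℝ := Real.pi / 20 with ha
  have ha1 : 0.1570796 ≤ a := by rw [ha]; linarith
  have ha2 : a ≤ 0.15707965 := by rw [ha]; linarith
  have hx : ‖Complex.I * (a : ℂ)‖ ≤ 1 := by
    rw [norm_mul, Complex.norm_I, one_mul, Complex.norm_real, Real.norm_eq_abs, abs_le]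
    constructor <;> linarith
  have h := Complex.exp_bound hx (n := 6) (by norm_num)
  have h1 : ‖Complex.I * (a : ℂ)‖ = a := by
    rw [norm_mul, Complex.norm_I, one_mul, Complex.norm_real, Real.norm_eq_abs,
      abs_of_nonneg (by linarith)]
  have h2 : a ^ 6 ≤ (0.15707965 : ℝ) ^ 6 := by gcongr
  have h3 : ‖Complex.exp (Complex.I * (a : ℂ)) -
      ∑ m ∈ range 6, (Complex.I * (a : ℂ)) ^ m / (m.factorial : ℂ)‖ ≤ 1 / 10 ^ 7 := by
    refine h.trans ?_
    rw [h1]
    have e : ((Nat.succ 6 : ℕ) : ℝ) * ((Nat.factorial 6 : ℕ) * ((6 : ℕ) : ℝ) : ℝ)⁻¹ = 7 / 4320 := by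
      norm_num [Nat.factorial]
    rw [e]
    calc a ^ 6 * (7 / 4320) ≤ (0.15707965 : ℝ) ^ 6 * (7 / 4320) := by gcongr
      _ ≤ _ := by norm_num
  have e4 : ∑ m ∈ range 6, (Complex.I * (a : ℂ)) ^ m / (m.factorial : ℂ) =
      ((1 - a ^ 2 / 2 + a ^ 4 / 24 : ℝ) : ℂ) + ((a - a ^ 3 / 6 + a ^ 5 / 120 : ℝ) : ℂ) *
        Complex.I := by
    have i2 : Complex.I ^ 2 = -1 := Complex.I_sq
    have i3 : Complex.I ^ 3 = -Complex.I := by rw [pow_succ, i2]; ring
    have i4 : Complex.I ^ 4 = 1 := by rw [pow_succ, i3]; linear_combination -i2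
    have i5 : Complex.I ^ 5 = Complex.I := by rw [pow_succ, i4]; ring
    simp only [sum_range_succ, range_zero, sum_empty, mul_pow, i2, i3, i4, i5, Nat.factorial]
    push_cast
    ring
  rw [e4] at h3
  have h5 : tau 1 = ((0.987688 : ℝ) : ℂ) + ((0.156434 : ℝ) : ℂ) * Complex.I := by
    have : tb 1 = (987688, 156434) := by decide
    unfold tau
    rw [this]
    norm_num
  have h6 : ‖tau 1 - (((1 - a ^ 2 / 2 + a ^ 4 / 24 : ℝ) : ℂ) +
      ((a - a ^ 3 / 6 + a ^ 5 / 120 : ℝ) : ℂ) * Complex.I)‖ ≤ 0.9 / 10 ^ 6 := by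
    rw [h5]
    have e : ((0.987688 : ℝ) : ℂ) + ((0.156434 : ℝ) : ℂ) * Complex.I -
        (((1 - a ^ 2 / 2 + a ^ 4 / 24 : ℝ) : ℂ) +
          ((a - a ^ 3 / 6 + a ^ 5 / 120 : ℝ) : ℂ) * Complex.I) =
        (((0.987688 - (1 - a ^ 2 / 2 + a ^ 4 / 24) : ℝ)) : ℂ) +
          ((0.156434 - (a - a ^ 3 / 6 + a ^ 5 / 120) : ℝ) : ℂ) * Complex.I := by
      push_cast; ring
    rw [e]
    refine (norm_le_add _ _).trans ?_
    have b2 : (0.1570796 : ℝ) ^ 2 ≤ a ^ 2 := by gcongr
    have b2' : a ^ 2 ≤ (0.15707965 : ℝ) ^ 2 := by gcongr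
    have b3 : (0.1570796 : ℝ) ^ 3 ≤ a ^ 3 := by gcongr
    have b3' : a ^ 3 ≤ (0.15707965 : ℝ) ^ 3 := by gcongr
    have b4 : (0.1570796 : ℝ) ^ 4 ≤ a ^ 4 := by gcongr
    have b4' : a ^ 4 ≤ (0.15707965 : ℝ) ^ 4 := by gcongr
    have b5 : (0.1570796 : ℝ) ^ 5 ≤ a ^ 5 := by gcongr
    have b5' : a ^ 5 ≤ (0.15707965 : ℝ) ^ 5 := by gcongr
    have c1 : |0.987688 - (1 - a ^ 2 / 2 + a ^ 4 / 24)| ≤ 0.4 / 10 ^ 6 := by
      rw [abs_le]
      norm_num at b2 b2' b4 b4' ⊢
      constructor <;> linarith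
    have c2 : |0.156434 - (a - a ^ 3 / 6 + a ^ 5 / 120)| ≤ 0.5 / 10 ^ 6 := by
      rw [abs_le]
      norm_num at b3 b3' b5 b5' ha1 ha2 ⊢
      constructor <;> linarith
    refine (add_le_add c1 c2).trans (by norm_num)
  have h7 : om = Complex.exp (Complex.I * (a : ℂ)) := rfl
  have h8 : tau 1 - om = (tau 1 - (((1 - a ^ 2 / 2 + a ^ 4 / 24 : ℝ) : ℂ) +
      ((a - a ^ 3 / 6 + a ^ 5 / 120 : ℝ) : ℂ) * Complex.I)) -
      (Complex.exp (Complex.I * (a : ℂ)) - (((1 - a ^ 2 / 2 + a ^ 4 / 24 : ℝ) : ℂ) +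
      ((a - a ^ 3 / 6 + a ^ 5 / 120 : ℝ) : ℂ) * Complex.I)) := by
    rw [h7]; ring
  rw [h8]
  refine (norm_sub_le _ _).trans ?_
  refine (add_le_add h6 h3).trans (by norm_num)

lemma tau_err_lt : ∀ j < 40, ‖tau j - om ^ j‖ ≤ j * (6 / 10 ^ 6 : ℝ) := by
  intro j
  induction j with
  | zero =>
    intro _
    have h0 : tb 0 = (1000000, 0) := by decide
    have : tau 0 = 1 := by
      unfold tau
      rw [h0]
      norm_num
    rw [this]
    simp
  | succ j ih =>
    intro hj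
    have hj' := ih (by omega)
    obtain ⟨h1, h2, h3⟩ := tab_step j (by omega)
    set c : ℤ := (tb j).1
    set s : ℤ := (tb j).2
    set c' : ℤ := (tb (j + 1)).1 with hc'
    set s' : ℤ := (tb (j + 1)).2 with hs'
    have h1R : |(c : ℝ) * 987688 - s * 156434 - 10 ^ 6 * c'| ≤ 2 * 10 ^ 6 := by
      exact_mod_cast h1
    have h2R : |(c : ℝ) * 156434 + s * 987688 - 10 ^ 6 * s'| ≤ 2 * 10 ^ 6 := by
      exact_mod_cast h2
    have h3R : |(c : ℝ)| + |(s : ℝ)| ≤ 1500000 := by exact_mod_cast h3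
    have ht : tau 1 = ((0.987688 : ℝ) : ℂ) + ((0.156434 : ℝ) : ℂ) * Complex.I := by
      have : tb 1 = (987688, 156434) := by decide
      unfold tau
      rw [this]
      norm_num
    have e1 : tau j * tau 1 - tau (j + 1) =
        ((((c : ℝ) * 987688 - s * 156434 - 10 ^ 6 * c') / 10 ^ 12 : ℝ) : ℂ) +
        ((((c : ℝ) * 156434 + s * 987688 - 10 ^ 6 * s') / 10 ^ 12 : ℝ) : ℂ) * Complex.I := by
      rw [ht]
      unfold tau
      have i2 : Complex.I ^ 2 = -1 := Complex.I_sq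
      push_cast
      linear_combination ((s : ℂ) * 156434 / 10 ^ 12) * i2
    have e2 : ‖tau j * tau 1 - tau (j + 1)‖ ≤ 4 / 10 ^ 6 := by
      rw [e1]
      refine (norm_le_add _ _).trans ?_
      rw [abs_div, abs_div, abs_of_nonneg (show (0 : ℝ) ≤ 10 ^ 12 by norm_num), ← add_div,
        div_le_div_iff₀ (by norm_num) (by norm_num)]
      linarith
    have e3 : ‖tau j‖ ≤ 1.5 := by
      unfold tau
      refine (norm_le_add _ _).trans ?_
      rw [abs_div, abs_div, abs_of_nonneg (show (0 : ℝ) ≤ 10 ^ 6 by norm_num), ← add_div,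
        div_le_iff₀ (by norm_num)]
      linarith
    have e4 : tau (j + 1) - om ^ (j + 1) =
        (tau j - om ^ j) * om + tau j * (tau 1 - om) - (tau j * tau 1 - tau (j + 1)) := by
      rw [pow_succ]; ring
    rw [e4]
    refine (norm_sub_le _ _).trans ?_
    refine (add_le_add (norm_add_le _ _) le_rfl).trans ?_
    rw [norm_mul, norm_mul, om_norm, mul_one]
    have e5 : ‖tau j‖ * ‖tau 1 - om‖ ≤ 1.5 * (1 / 10 ^ 6) := by
      gcongr
      exact om_one
    push_cast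
    nlinarith

lemma tau_err (j : ℕ) : ‖tau j - om ^ j‖ ≤ 1 / 4000 := by
  have h1 : tau j = tau (j % 40) := by
    unfold tau tb
    rw [Nat.mod_mod]
  have h2 : om ^ j = om ^ (j % 40) := by
    conv_lhs => rw [← Nat.div_add_mod j 40]
    rw [pow_add, pow_mul, om_pow, one_pow, one_mul]
  rw [h1, h2]
  have h3 : j % 40 < 40 := Nat.mod_lt _ (by norm_num)
  refine (tau_err_lt _ h3).trans ?_
  have h4 : ((j % 40 : ℕ) : ℝ) ≤ 40 := by exact_mod_cast h3.le
  nlinarith

end Pool.Agent.TH265.RB
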